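import Pool.Agent.Helper52.Hit.JoinD

/-!
# The join theorem
-/

set_option autoImplicit false

open scoped Classical

namespace Pool.Agent.Helper64.Hit

namespace Jn

section
variable {H b n M : ℕ} {F : List En} {col : En → ℕ}

/-- base nodes of an entry -/
noncomputable def bs (F : List En) (e : En) : Finset ℕ := if isL e then {0} else starts F e

/-- representatives of base items -/
noncomputable def brep (F : List En) (e : En) (l : ℕ) : En :=
  if isL e then rep (LC F e) else rep (C F e l)

/-- representatives of node items -/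
noncomputable def nrep (F : List En) (e : En) (l : ℕ) : En :=
  if In e l then rep (C F e l) else e

lemma len_pos_or {e : En} (h : ¬ isL e) (h0 : ¬ 0 < len e) (x : ℕ →₀ ℝ) : e.a.val x = 0 := by
  cases ha : e.a with
  | leaf k => exact absurd ⟨k, ha⟩ h
  | pc p =>
    have h1 : p.gs = [] := by
      unfold len at h0
      rw [P_pc ha] at h0
      exact List.length_eq_zero_iff.1 (by omega)
    rw [val_pc, h1]
    have : sumf [] = 0 := by simp [sumf]
    rw [this, pr_zero, mul_zero]

/-- domination of an entry -/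
lemma entry_dom (hF : CF H b n M F col) {e : En} (he : e ∈ F) (x : ℕ →₀ ℝ) :
    |e.a.val x| ≤ ∑ l ∈ bs F e, |(batom F e l).val x| +
      ∑ l ∈ others F e, 1 / (v (P e).i : ℝ) * Phi (ndT (P e) l) x := by
  have h2 : 0 ≤ ∑ l ∈ others F e, 1 / (v (P e).i : ℝ) * Phi (ndT (P e) l) x :=
    Finset.sum_nonneg fun l _ => mul_nonneg (by positivity) (Phi_nonneg _ _)
  unfold bs batom
  by_cases h : isL e
  · rw [if_pos h, Finset.sum_singleton, if_pos h]
    linarith
  · rw [if_neg h]
    by_cases h0 : 0 < len e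
    · have := piece_dom hF he h0 x
      have e1 : ∑ l ∈ starts F e, |(if isL e then e.a else .pc (run F e l)).val x| =
          ∑ l ∈ starts F e, |(At.pc (run F e l)).val x| := by
        refine Finset.sum_congr rfl fun l _ => ?_
        rw [if_neg h]
      rw [e1]
      exact this
    · rw [len_pos_or h h0, abs_zero]
      exact add_nonneg (Finset.sum_nonneg fun l _ => abs_nonneg _) h2

lemma C_mem {e : En} (he : e ∈ F) {l : ℕ} (h : In e l) : rep (C F e l) ∈ C F e l :=
  rep_mem ⟨e, he, Eqv.refl _ _, h⟩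

lemma LC_mem {e : En} (he : e ∈ F) : rep (LC F e) ∈ LC F e := rep_mem ⟨e, he, rfl, rfl⟩

lemma brep_spec (hF : CF H b n M F col) {e : En} (he : e ∈ F) {l : ℕ} (hl : l ∈ bs F e) :
    (⟨brep F e l, l⟩ : Σ _ : En, ℕ) ∈ BI F ∧ word (brep F e l).p = word e.p ∧
      ∀ x, (batom F (brep F e l) l).val x = (batom F e l).val x := by
  unfold bs at hl
  by_cases h : isL e
  · rw [if_pos h, Finset.mem_singleton] at hl
    have hb : brep F e l = rep (LC F e) := by unfold brep; rw [if_pos h]
    have hm := LC_mem he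
    have hL : isL (rep (LC F e)) := by
      obtain ⟨k, hk⟩ := h
      exact ⟨k, hm.2.1.trans hk⟩
    have hLC : LC F (rep (LC F e)) = LC F e := by
      unfold LC at hm ⊢
      rw [hm.2.1, hm.2.2]
    rw [hb, mem_BI]
    refine ⟨⟨hm.1, Or.inl ⟨hL, hl, ?_⟩⟩, hm.2.2, fun x => ?_⟩
    · show rep (LC F e) = rep (LC F (rep (LC F e)))
      rw [hLC]
    · unfold batom
      rw [if_pos hL, if_pos h, hm.2.1]
  · rw [if_neg h, mem_starts] at hl
    have hb : brep F e l = rep (C F e l) := by unfold brep; rw [if_neg h]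
    have hm := C_mem he hl.1.1
    have hs := Start_congr he hm.2.1 hl.1.1 hm.2.2 hl
    rw [hb, mem_BI]
    refine ⟨⟨hm.1, Or.inr ⟨hm.1, hs, ?_⟩⟩, hm.2.1.1.symm, fun x => ?_⟩
    · show rep (C F e l) = rep (C F (rep (C F e l)) l)
      rw [← C_eq hm.2.1]
    · unfold batom
      rw [if_neg (not_isL hs), if_neg h]
      exact (run_val_congr hF he hm.1 hm.2.1 hl hm.2.2 x).symm

lemma nrep_spec (hF : CF H b n M F col) {e : En} (he : e ∈ F) {l : ℕ} (hl : l ∈ others F e) :
    (⟨nrep F e l, l⟩ : Σ _ : En, ℕ) ∈ NI F (P e).i ∧ word (nrep F e l).p = word e.p ∧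
      ndT (P (nrep F e l)) l = ndT (P e) l := by
  rw [mem_others] at hl
  rw [mem_NI]
  unfold nrep
  by_cases h : In e l
  · rw [if_pos h]
    have hm := C_mem he h
    refine ⟨⟨⟨hm.1, hm.2.2.touch hF hm.1, fun hg => hl.2 (Good_congr hm.2.1.symm h hg), fun _ => ?_⟩,
      hm.2.1.2.1.symm⟩, hm.2.1.1.symm, (ndT_congr hF he hm.1 hm.2.1 h hm.2.2).symm⟩
    show rep (C F e l) = rep (C F (rep (C F e l)) l)
    rw [← C_eq hm.2.1]
  · rw [if_neg h]
    exact ⟨⟨⟨he, hl.1, hl.2, fun h' => absurd h' h⟩, rfl⟩, rfl, rfl⟩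

/-- a tree-disjoint part of the forest -/
structure Part (F G : List En) : Prop where
  sub : ∀ e ∈ G, e ∈ F
  td : ∀ e ∈ G, ∀ e' ∈ G, e ≠ e' → word e.p = word e'.p → Cp e.a e'.a

lemma T1' (hF : CF H b n M F col) {G : List En} (hG : Part F G) {e e' : En} (he : e ∈ G)
    (he' : e' ∈ G) {l : ℕ} (hE : Eqv e e' (l + 1)) (h1 : In e l) (h2 : In e' l) : e = e' := by
  by_contra hne
  have hcp := hG.td e he e' he' hne hE.1
  have a1 := h1.touch hF (hG.sub e he)
  have a2 := h2.touch hF (hG.sub e' he')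
  have b1 := h1.lt_d hF (hG.sub e he)
  have b2 := h2.lt_d hF (hG.sub e' he')
  have e1 : hi e l = hi e' l := hE.hi (Nat.lt_succ_self l)
  exact T1 hcp hE h1.lt (hF.lo_le (hG.sub e he) h1.lt) a1.2.1 b1.le (by rw [e1]; exact a2.2.1)
    (by rw [e1]; exact b2.le)

lemma brep_inj (hF : CF H b n M F col) {G : List En} (hG : Part F G) {e e' : En} (he : e ∈ G)
    (he' : e' ∈ G) {l : ℕ} (hl : l ∈ bs F e) (hl' : l ∈ bs F e')
    (hb : brep F e l = brep F e' l) : e = e' := by
  unfold brep at hb
  unfold bs at hl hl'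
  by_cases h : isL e
  · by_cases h' : isL e'
    · rw [if_pos h, if_pos h'] at hb
      have m1 := LC_mem (hG.sub e he)
      have m2 := LC_mem (hG.sub e' he')
      rw [← hb] at m2
      by_contra hne
      have hcp := hG.td e he e' he' hne (m1.2.2.symm.trans m2.2.2)
      obtain ⟨k, hk⟩ := h
      have ha : e.a = e'.a := m1.2.1.symm.trans m2.2.1
      rw [← ha, hk] at hcp
      exact hcp rfl
    · exfalso
      rw [if_pos h, if_neg h'] at hb
      rw [if_neg h', mem_starts] at hl'
      have m1 := LC_mem (hG.sub e he)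
      have m2 := C_mem (hG.sub e' he') hl'.1.1
      rw [← hb] at m2
      obtain ⟨k, hk⟩ := h
      have h3 : (rep (LC F e)).a = .leaf k := m1.2.1.trans hk
      rw [a_eq (lt_of_le_of_lt (Nat.zero_le _) m2.2.2.lt)] at h3
      simp at h3
  · by_cases h' : isL e'
    · exfalso
      rw [if_neg h, if_pos h'] at hb
      rw [if_neg h, mem_starts] at hl
      have m1 := LC_mem (hG.sub e' he')
      have m2 := C_mem (hG.sub e he) hl.1.1
      rw [hb] at m2
      obtain ⟨k, hk⟩ := h'
      have h3 : (rep (LC F e')).a = .leaf k := m1.2.1.trans hk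
      rw [a_eq (lt_of_le_of_lt (Nat.zero_le _) m2.2.2.lt)] at h3
      simp at h3
    · rw [if_neg h, if_neg h'] at hb
      rw [if_neg h, mem_starts] at hl
      rw [if_neg h', mem_starts] at hl'
      have m1 := C_mem (hG.sub e he) hl.1.1
      have m2 := C_mem (hG.sub e' he') hl'.1.1
      rw [← hb] at m2
      exact T1' hF hG he he' (m1.2.1.trans m2.2.1.symm) hl.1.1 hl'.1.1

lemma nrep_inj (hF : CF H b n M F col) {G : List En} (hG : Part F G) {e e' : En} (he : e ∈ G)
    (he' : e' ∈ G) {l : ℕ} (hb : nrep F e l = nrep F e' l) : e = e' := by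
  unfold nrep at hb
  by_cases h : In e l
  · by_cases h' : In e' l
    · rw [if_pos h, if_pos h'] at hb
      have m1 := C_mem (hG.sub e he) h
      have m2 := C_mem (hG.sub e' he') h'
      rw [← hb] at m2
      exact T1' hF hG he he' (m1.2.1.trans m2.2.1.symm) h h'
    · exfalso
      rw [if_pos h, if_neg h'] at hb
      have m1 := C_mem (hG.sub e he) h
      rw [hb] at m1
      exact h' m1.2.2
  · by_cases h' : In e' l
    · exfalso
      rw [if_neg h, if_pos h'] at hb
      have m1 := C_mem (hG.sub e' he') h'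
      rw [← hb] at m1
      exact h m1.2.2
    · rw [if_neg h, if_neg h'] at hb
      exact hb

/-- the base map -/
noncomputable def bmap (F : List En) (a : Σ _ : En, ℕ) : Σ _ : En, ℕ := ⟨brep F a.1 a.2, a.2⟩

/-- the node map -/
noncomputable def nmap (F : List En) (a : Σ _ : En, ℕ) : Σ _ : En, ℕ := ⟨nrep F a.1 a.2, a.2⟩

/-- the node items used by a part -/
noncomputable def NG (F G : List En) : Finset (Σ _ : En, ℕ) :=
  (G.toFinset.sigma (others F)).image (nmap F)

/-- the list of node items used by a part -/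
noncomputable def NL (F G : List En) (i : ℕ) : List (Σ _ : En, ℕ) :=
  (NI F i).toList.filter (fun a => decide (a ∈ NG F G))

lemma mem_NL {G : List En} {i : ℕ} {a : Σ _ : En, ℕ} :
    a ∈ NL F G i ↔ a ∈ NI F i ∧ ∃ e ∈ G, ∃ l ∈ others F e, a = ⟨nrep F e l, l⟩ := by
  unfold NL
  rw [List.mem_filter, Finset.mem_toList, decide_eq_true_eq]
  unfold NG
  rw [Finset.mem_image]
  constructor
  · rintro ⟨h1, z, hz, rfl⟩
    rw [Finset.mem_sigma, List.mem_toFinset] at hz
    exact ⟨h1, z.1, hz.1, z.2, hz.2, rfl⟩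
  · rintro ⟨h1, e, he, l, hl, rfl⟩
    exact ⟨h1, ⟨e, l⟩, by rw [Finset.mem_sigma, List.mem_toFinset]; exact ⟨he, hl⟩, rfl⟩

lemma NL_sub (G : List En) (i : ℕ) :
    (SUB M F col i (NL F G i)).Sublist (SUB M F col i (NI F i).toList) := by
  unfold SUB bind
  exact List.Sublist.flatMap List.filter_sublist _

lemma NL_td (hF : CF H b n M F col) {G : List En} (hG : Part F G) (i : ℕ) :
    TD (SUB M F col i (NL F G i)) := by
  refine TD_bind ?_ ?_
  · intro a ha
    rw [mem_NL, mem_NI] at ha
    exact ndT_td (hF.pl ha.1.1.1 (lt_of_le_of_lt (Nat.zero_le _) ha.1.1.2.1.1)) ha.1.1.2.1.1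
  · have hnd : (NL F G i).Nodup := (Finset.nodup_toList (NI F i)).filter _
    refine List.Pairwise.imp_of_mem (fun {a a'} ha ha' hne => ?_) hnd
    intro z hz z' hz' hw
    rw [mem_NL] at ha ha'
    obtain ⟨w1, w2⟩ := SUB_word hF ha.1 ha'.1 hw
    obtain ⟨m1, e, he, l, hl, rfl⟩ := ha
    obtain ⟨m2, e', he', l', hl', rfl⟩ := ha'
    have s1 := nrep_spec hF (hG.sub e he) hl
    have s2 := nrep_spec hF (hG.sub e' he') hl'
    unfold nG at hz hz'
    simp only at hz hz' w1
    rw [s1.2.2] at hz
    rw [s2.2.2] at hz'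
    rw [s1.2.1, s2.2.1] at w1
    have i1 : (P e).i = i := (mem_NI.1 s1.1).2.symm.trans (mem_NI.1 m1).2
    have i2 : (P e').i = i := (mem_NI.1 s2.1).2.symm.trans (mem_NI.1 m2).2
    refine cross hF (hG.sub e he) (hG.sub e' he') (mem_others.1 hl).1.1 (mem_others.1 hl').1.1 ?_
      (i1.trans i2.symm) ?_ hz hz' w2
    · rintro ⟨rfl, rfl⟩
      exact hne rfl
    · intro hee
      exact hG.td e he e' he' hee w1

lemma cf_base (u : List Let) : cf (u ++ [.E 0]) = cf u * (1 / 8) := by
  rw [cf_append, cf_cons, cf_nil, mul_one]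
  congr 2
  show ((w 0 : ℕ) : ℝ) = 8
  rw [w_zero]
  norm_num

lemma cf_node (u : List Let) (i : ℕ) :
    cf (u ++ [.E 0, .L i]) = cf u * ((1 / 8) * ((kap i : ℝ) / v i)) := by
  rw [cf_append, cf_cons, cf_cons, cf_nil, mul_one]
  congr 2
  · have : (Let.E 0).kd.wt = ((w 0 : ℕ) : ℝ) := rfl
    rw [this, w_zero]
    norm_num
  · have : (Let.L i).kd.wt = (v i : ℝ) / kap i := rfl
    rw [this, one_div_div]

lemma Phi_BASE (hF : CF H b n M F col) (x : ℕ →₀ ℝ) : 8 * Phi (BASE M F col) x =
    ∑ a ∈ BI F, cf (word a.1.p) * |(batom F a.1 a.2).val x| := by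
  unfold BASE
  rw [Phi_bind, Finset.sum_map_toList, Finset.mul_sum]
  refine Finset.sum_congr rfl fun a ha => ?_
  rw [mem_BI] at ha
  have s1 := bslot_spec hF ha.1 ha.2
  have e1 : word ((bslot F a.1 a.2).p ++ [.lt (.E 0), .nm (bcode M F col a.1 a.2)]) =
      word a.1.p ++ [.E 0] := by
    simp [s1.2.1]
  rw [e1, cf_base, Phi_cons, Phi_nil, add_zero]
  unfold En.cf
  simp only [word_nil, cf_nil, one_mul]
  ring

lemma sum_filter_list {α : Type} (L : List α) (p : α → Bool) (f : α → ℝ) :
    ((L.filter p).map f).sum = (L.map fun a => if p a = true then f a else 0).sum := by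
  induction L with
  | nil => simp
  | cons a L ih =>
    rw [List.filter_cons]
    by_cases h : p a = true
    · simp [h, ih]
    · simp [h, ih]

lemma Phi_NL (hF : CF H b n M F col) (G : List En) (i : ℕ) (x : ℕ →₀ ℝ) :
    8 / (kap i : ℝ) * Phi (SUB M F col i (NL F G i)) x =
    ∑ a ∈ (NI F i).filter (fun a => a ∈ NG F G),
      cf (word a.1.p) * (1 / (v (P a.1).i : ℝ) * Phi (ndT (P a.1) a.2) x) := by
  unfold SUB NL
  rw [Phi_bind, sum_filter_list, Finset.sum_map_toList, Finset.sum_filter, Finset.mul_sum]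
  refine Finset.sum_congr rfl fun a ha => ?_
  by_cases h : a ∈ NG F G
  · rw [if_pos (by simpa using h), if_pos h]
    rw [mem_NI] at ha
    have s1 := nslot_spec hF ha.1
    rw [word_nπ, cf_node, s1.2.1, ha.2]
    have hk : (kap i : ℝ) ≠ 0 := by
      have := kap_pos i
      positivity
    unfold nG
    field_simp
  · rw [if_neg (by simpa using h), if_neg h, mul_zero]

/-- the domination -/
lemma domination (hF : CF H b n M F col) {G : List En} (hG : Part F G) (hnd : G.Nodup)
    (x : ℕ →₀ ℝ) : Phi G x ≤ 8 * Phi (BASE M F col) x +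
      ∑ i ∈ F.toFinset.image (fun e => (P e).i),
        8 / (kap i : ℝ) * Phi (SUB M F col i (NL F G i)) x := by
  have h1 : Phi G x = ∑ e ∈ G.toFinset, e.cf * |e.a.val x| := by
    unfold Phi
    rw [List.sum_toFinset _ hnd]
  have h2 : Phi G x ≤ ∑ a ∈ G.toFinset.sigma (bs F), a.1.cf * |(batom F a.1 a.2).val x| +
      ∑ a ∈ G.toFinset.sigma (others F),
        a.1.cf * (1 / (v (P a.1).i : ℝ) * Phi (ndT (P a.1) a.2) x) := by
    rw [h1, Finset.sum_sigma, Finset.sum_sigma, ← Finset.sum_add_distrib]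
    refine Finset.sum_le_sum fun e he => ?_
    rw [List.mem_toFinset] at he
    have := entry_dom hF (hG.sub e he) x
    simp only
    rw [← Finset.mul_sum, ← Finset.mul_sum, ← mul_add]
    exact mul_le_mul_of_nonneg_left this e.cf_pos.le
  -- the base part
  have h3 : ∑ a ∈ G.toFinset.sigma (bs F), a.1.cf * |(batom F a.1 a.2).val x| ≤
      8 * Phi (BASE M F col) x := by
    rw [Phi_BASE hF]
    have hinj : Set.InjOn (bmap F) (G.toFinset.sigma (bs F) : Set (Σ _ : En, ℕ)) := by
      rintro ⟨e, l⟩ hz ⟨e', l'⟩ hz' heq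
      rw [Finset.mem_coe, Finset.mem_sigma, List.mem_toFinset] at hz hz'
      unfold bmap at heq
      simp only [Sigma.mk.injEq] at heq
      obtain ⟨a1, a2⟩ := heq
      have a3 : l = l' := eq_of_heq a2
      subst a3
      have := brep_inj hF hG hz.1 hz'.1 hz.2 hz'.2 a1
      subst this
      rfl
    have e1 : ∑ a ∈ G.toFinset.sigma (bs F), a.1.cf * |(batom F a.1 a.2).val x| =
        ∑ a ∈ (G.toFinset.sigma (bs F)).image (bmap F),
          cf (word a.1.p) * |(batom F a.1 a.2).val x| := by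
      rw [Finset.sum_image hinj]
      refine Finset.sum_congr rfl fun a ha => ?_
      rw [Finset.mem_sigma, List.mem_toFinset] at ha
      have s1 := brep_spec hF (hG.sub _ ha.1) ha.2
      unfold bmap
      simp only
      rw [s1.2.1, s1.2.2 x]
      rfl
    rw [e1]
    refine Finset.sum_le_sum_of_subset_of_nonneg ?_ fun a _ _ =>
      mul_nonneg (cf_pos _).le (abs_nonneg _)
    intro a ha
    rw [Finset.mem_image] at ha
    obtain ⟨z, hz, rfl⟩ := ha
    rw [Finset.mem_sigma, List.mem_toFinset] at hz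
    exact (brep_spec hF (hG.sub _ hz.1) hz.2).1
  -- the node part
  have h4 : ∑ a ∈ G.toFinset.sigma (others F),
        a.1.cf * (1 / (v (P a.1).i : ℝ) * Phi (ndT (P a.1) a.2) x) =
      ∑ i ∈ F.toFinset.image (fun e => (P e).i),
        8 / (kap i : ℝ) * Phi (SUB M F col i (NL F G i)) x := by
    have hinj : Set.InjOn (nmap F) (G.toFinset.sigma (others F) : Set (Σ _ : En, ℕ)) := by
      rintro ⟨e, l⟩ hz ⟨e', l'⟩ hz' heq
      rw [Finset.mem_coe, Finset.mem_sigma, List.mem_toFinset] at hz hz'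
      unfold nmap at heq
      simp only [Sigma.mk.injEq] at heq
      obtain ⟨a1, a2⟩ := heq
      have a3 : l = l' := eq_of_heq a2
      subst a3
      have := nrep_inj hF hG hz.1 hz'.1 a1
      subst this
      rfl
    have e1 : ∑ a ∈ G.toFinset.sigma (others F),
        a.1.cf * (1 / (v (P a.1).i : ℝ) * Phi (ndT (P a.1) a.2) x) =
        ∑ a ∈ NG F G, cf (word a.1.p) * (1 / (v (P a.1).i : ℝ) * Phi (ndT (P a.1) a.2) x) := by
      unfold NG
      rw [Finset.sum_image hinj]
      refine Finset.sum_congr rfl fun a ha => ?_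
      rw [Finset.mem_sigma, List.mem_toFinset] at ha
      have s1 := nrep_spec hF (hG.sub _ ha.1) ha.2
      have i1 := (mem_NI.1 s1.1).2
      unfold nmap
      simp only at i1 ⊢
      rw [s1.2.1, s1.2.2, i1]
      rfl
    have hmaps : ∀ a ∈ NG F G, (P a.1).i ∈ F.toFinset.image (fun e => (P e).i) := by
      intro a ha
      unfold NG at ha
      rw [Finset.mem_image] at ha
      obtain ⟨z, hz, rfl⟩ := ha
      rw [Finset.mem_sigma, List.mem_toFinset] at hz
      have s1 := nrep_spec hF (hG.sub _ hz.1) hz.2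
      rw [Finset.mem_image]
      exact ⟨_, List.mem_toFinset.2 (mem_NI.1 s1.1).1.1, rfl⟩
    rw [e1, ← Finset.sum_fiberwise_of_maps_to hmaps]
    refine Finset.sum_congr rfl fun i _ => ?_
    rw [Phi_NL hF]
    refine Finset.sum_congr ?_ fun a _ => rfl
    ext a
    rw [Finset.mem_filter, Finset.mem_filter]
    constructor
    · rintro ⟨a1, a2⟩
      refine ⟨?_, a1⟩
      unfold NG at a1
      rw [Finset.mem_image] at a1
      obtain ⟨z, hz, rfl⟩ := a1
      rw [Finset.mem_sigma, List.mem_toFinset] at hz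
      have s1 := (nrep_spec hF (hG.sub _ hz.1) hz.2).1
      rw [mem_NI] at s1 ⊢
      exact ⟨s1.1, a2⟩
    · rintro ⟨a1, a2⟩
      exact ⟨a2, (mem_NI.1 a1).2⟩
  rw [← h4]
  linarith

/-- the property of the join theorem -/
def JP (b n : ℕ) (F : List En) : Prop :=
  ∃ L : List (ℝ × List En), (∀ p ∈ L, 0 ≤ p.1 ∧ Leg b n p.2) ∧ (L.map Prod.fst).sum ≤ 16 ∧
    ∀ G : List En, G.Sublist F → TD G → ∀ x, Phi G x ≤ (L.map fun p => p.1 * Phi p.2 x).sum

lemma sum_flatMap {α β : Type} (L : List α) (f : α → List β) (g : β → ℝ) :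
    ((L.flatMap f).map g).sum = (L.map fun a => ((f a).map g).sum).sum := by
  induction L with
  | nil => simp
  | cons a L ih => rw [List.flatMap_cons, List.map_append, List.sum_append, ih]; simp

lemma sum_mul_list {α : Type} (L : List α) (c : ℝ) (g : α → ℝ) :
    (L.map fun a => c * g a).sum = c * (L.map g).sum := by
  induction L with
  | nil => simp
  | cons a L ih => simp [ih, mul_add]

lemma kap_sum (I : Finset ℕ) : ∑ i ∈ I, 8 / (kap i : ℝ) * 16 ≤ 8 := by
  obtain ⟨N, hN⟩ : ∃ N, I ⊆ Finset.range N := ⟨I.sup id + 1, fun i hi => by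
    rw [Finset.mem_range]
    exact Nat.lt_succ_of_le (Finset.le_sup (f := id) hi)⟩
  calc ∑ i ∈ I, 8 / (kap i : ℝ) * 16 ≤ ∑ i ∈ Finset.range N, 8 / (kap i : ℝ) * 16 :=
        Finset.sum_le_sum_of_subset_of_nonneg hN fun i _ _ => by positivity
    _ = ∑ i ∈ Finset.range N, 4 * (1 / (2 : ℝ)) ^ i := by
        refine Finset.sum_congr rfl fun i _ => ?_
        unfold kap
        push_cast
        rw [pow_add, one_div_pow]
        have : (2 : ℝ) ^ i ≠ 0 := by positivity
        field_simp
        norm_num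
    _ = 4 * ∑ i ∈ Finset.range N, (1 / (2 : ℝ)) ^ i := by rw [Finset.mul_sum]
    _ ≤ 4 * 2 := mul_le_mul_of_nonneg_left (sum_geometric_two_le N) (by norm_num)
    _ = 8 := by norm_num

lemma step (hF : CF H b n M F col)
    (IH : ∀ i, JP b n (SUB M F col i (NI F i).toList)) : JP b n F := by
  choose Ls hLs using IH
  set I := F.toFinset.image (fun e => (P e).i) with hI
  have hFnd : F.Nodup := by
    refine hF.val.div.imp fun {e e'} h hee => ?_
    subst hee
    exact h.ne rfl
  refine ⟨(8, BASE M F col) :: I.toList.flatMap fun i =>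
    (Ls i).map fun p => (8 / (kap i : ℝ) * p.1, p.2), ?_, ?_, ?_⟩
  · intro p hp
    rw [List.mem_cons] at hp
    rcases hp with rfl | hp
    · exact ⟨by norm_num, BASE_val hF, BASE_td hF⟩
    · rw [List.mem_flatMap] at hp
      obtain ⟨i, _, hp⟩ := hp
      rw [List.mem_map] at hp
      obtain ⟨p', hp', rfl⟩ := hp
      have := (hLs i).1 p' hp'
      exact ⟨mul_nonneg (by positivity) this.1, this.2⟩
  · rw [List.map_cons, List.sum_cons, sum_flatMap, Finset.sum_map_toList]
    have h1 : ∑ i ∈ I, (((Ls i).map fun p => (8 / (kap i : ℝ) * p.1, p.2)).map Prod.fst).sum ≤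
        ∑ i ∈ I, 8 / (kap i : ℝ) * 16 := by
      refine Finset.sum_le_sum fun i _ => ?_
      rw [List.map_map]
      have e1 : (Prod.fst ∘ fun p : ℝ × List En => (8 / (kap i : ℝ) * p.1, p.2)) =
          fun p => 8 / (kap i : ℝ) * Prod.fst p := rfl
      rw [e1, sum_mul_list]
      exact mul_le_mul_of_nonneg_left (hLs i).2.1 (by positivity)
    have h2 := kap_sum I
    show (8 : ℝ) + _ ≤ 16
    linarith
  · intro G hG hTD x
    have hsym : Std.Symm (fun e e' : En => word e.p = word e'.p → Cp e.a e'.a) :=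
      ⟨fun a b h h1 => (h h1.symm).symm⟩
    have hPart : Part F G := ⟨fun e he => hG.subset he, fun e he e' he' hne hw =>
      List.Pairwise.forall hTD he he' hne hw⟩
    have hdom := domination hF hPart (hFnd.sublist hG) x
    refine hdom.trans ?_
    rw [List.map_cons, List.sum_cons, sum_flatMap, Finset.sum_map_toList]
    refine add_le_add le_rfl (Finset.sum_le_sum fun i _ => ?_)
    rw [List.map_map]
    have e1 : ((fun p : ℝ × List En => p.1 * Phi p.2 x) ∘
        fun p : ℝ × List En => (8 / (kap i : ℝ) * p.1, p.2)) =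
        fun p => 8 / (kap i : ℝ) * (p.1 * Phi p.2 x) := by
      funext p
      simp only [Function.comp_apply]
      ring
    rw [e1, sum_mul_list]
    exact mul_le_mul_of_nonneg_left ((hLs i).2.2 _ (NL_sub G i) (NL_td hF hPart i) x)
      (by positivity)

lemma main (H : ℕ) : ∀ (b n M : ℕ) (F : List En) (col : En → ℕ), CF H b n M F col → JP b n F := by
  induction H with
  | zero =>
    intro b n M F col hF
    refine step hF fun i => ?_
    rw [NI_empty hF i]
    refine ⟨[], by simp, by simp, fun G hG _ x => ?_⟩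
    have : SUB M F col i (∅ : Finset (Σ _ : En, ℕ)).toList = [] := by
      simp [SUB, bind]
    rw [this, List.sublist_nil] at hG
    subst hG
    simp
  | succ H ih =>
    intro b n M F col hF
    exact step hF fun i => ih b n M _ _ (SUB_CF hF i)

end

end Jn

/-- H3: induction form. `F` is a valid forest whose entries are coloured by `M` colours, every colour class being
tree-disjoint. Then there are finitely many legitimate forests whose L1-forms dominate the form of every
tree-disjoint subforest `G` of `F`, with total mass at most `16`. -/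
theorem join_aux (M H : ℕ) : ∀ (b n : ℕ) (F : List En) (col : En → ℕ), Val (PL H) b n F →
    (∀ e ∈ F, col e < M) →
    F.Pairwise (fun e e' => col e = col e' → word e.p = word e'.p → Cp e.a e'.a) →
    (∀ e ∈ F, joinN M ≤ e.pos) →
    ∃ L : List (ℝ × List En), (∀ p ∈ L, 0 ≤ p.1 ∧ Leg b n p.2) ∧ (L.map Prod.fst).sum ≤ 16 ∧
      ∀ G : List En, G.Sublist F → TD G → ∀ x, Phi G x ≤ (L.map fun p => p.1 * Phi p.2 x).sum :=
  fun b n F col h1 h2 h3 h4 => Jn.main H b n M F col ⟨h1, h2, h3, h4⟩

/-- the first number of a path -/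
def firstN : List Sym → ℕ
  | .nm k :: _ => k
  | _ => 0

/-- H3: final form -/
theorem join (M : ℕ) (t : Fin M → List En) (ht : ∀ i, Leg 0 0 (t i))
    (hpos : ∀ i, ∀ e ∈ t i, joinN M ≤ e.pos) :
    ∃ L : List (ℝ × List En), (∀ p ∈ L, 0 ≤ p.1 ∧ Leg 0 1 p.2) ∧ (L.map Prod.fst).sum ≤ 16 ∧
      ∀ i x, Phi (t i) x ≤ (L.map fun p => p.1 * Phi p.2 x).sum := by
  have hMj : M ≤ joinN M := by unfold joinN; nlinarith [Nat.zero_le M, Nat.zero_le (M ^ 2)]
  set F : List En := bind (List.finRange M) (fun i => [.nm i.1]) t with hFdef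
  have hval : Val PLg 0 1 F := by
    refine Val_bind 0 ?_ ?_ ?_ ?_ ?_
    · intro i _
      simpa using (ht i).1
    · intro i _ q hq
      simpa using hq
    · intro i _ e he k hk
      simp only [List.mem_singleton, Sym.nm.injEq] at hk
      have := hpos i e he
      have := i.2
      omega
    · intro i _
      simp
    · refine List.Pairwise.imp_of_mem (fun {i j} _ _ hne e he e' he' => ?_) (List.nodup_finRange M)
      have h1 : (i : ℕ) ≠ j := fun h => hne (Fin.ext h)
      have a1 := hpos i e he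
      have a2 := hpos j e' he'
      have b1 := i.2
      have b2 := j.2
      rw [Div_nm_nm, if_neg h1]
      omega
  obtain ⟨H, hH⟩ := exists_height hval
  have hc : ∀ e ∈ F, firstN e.p < M := by
    intro e he
    obtain ⟨i, _, e', _, rfl⟩ := mem_bind.1 he
    exact i.2
  have hpw : F.Pairwise (fun e e' => firstN e.p = firstN e'.p → word e.p = word e'.p →
      Cp e.a e'.a) := by
    rw [hFdef]
    unfold bind
    rw [List.pairwise_flatMap]
    constructor
    · intro i _
      rw [List.pairwise_map]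
      refine (ht i).2.imp fun {e e'} h _ hw => ?_
      exact h (by simpa using hw)
    · refine (List.nodup_finRange M).imp fun {i j} hne e he e' he' hc => ?_
      rw [List.mem_map] at he he'
      obtain ⟨z, _, rfl⟩ := he
      obtain ⟨z', _, rfl⟩ := he'
      exact absurd (Fin.ext hc) hne
  have hp : ∀ e ∈ F, joinN M ≤ e.pos := by
    intro e he
    obtain ⟨i, _, e', he', rfl⟩ := mem_bind.1 he
    exact hpos i e' he'
  obtain ⟨L, h1, h2, h3⟩ := join_aux M H 0 1 F (fun e => firstN e.p) hH hc hpw hp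
  refine ⟨L, h1, h2, fun i x => ?_⟩
  have hsub : ((t i).map (En.pre [.nm i.1])).Sublist F := by
    rw [hFdef]
    unfold bind
    have : ([i] : List (Fin M)).Sublist (List.finRange M) :=
      List.singleton_sublist.2 (List.mem_finRange i)
    have := this.flatMap (fun a => (t a).map (En.pre [.nm a.1]))
    simpa using this
  have htd : TD ((t i).map (En.pre [.nm i.1])) := by
    unfold TD
    rw [List.pairwise_map]
    refine (ht i).2.imp fun {e e'} h hw => ?_
    exact h (by simpa using hw)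
  have := h3 _ hsub htd x
  rwa [Phi_map_pre, word_nm, word_nil, cf_nil, one_mul] at this

end Pool.Agent.Helper64.Hit
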