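import Pool.Agent.Helper64.Hit.NodeF

/-!
# The join theorem, part A: combinatorics of the nodes of the pieces of a coloured forest
-/

set_option autoImplicit false

open scoped Classical

namespace Pool.Agent.Helper64.Hit

/-- threshold for the join of `M` trees -/
def joinN (M : ℕ) : ℕ := 10 * (M + 1) ^ 2

namespace Jn

/-- the piece of an entry (a dummy piece without nodes for leaves) -/
def P (e : En) : Pc :=
  match e.a with
  | .pc p => p
  | .leaf _ => ⟨0, [], 0, 0⟩

lemma P_pc {e : En} {p : Pc} (h : e.a = .pc p) : P e = p := by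
  unfold P; rw [h]

lemma P_leaf {e : En} {k : ℕ} (h : e.a = .leaf k) : (P e).gs = [] := by
  unfold P; rw [h]

/-- number of nodes -/
def len (e : En) : ℕ := (P e).gs.length

lemma a_eq {e : En} (h : 0 < len e) : e.a = .pc (P e) := by
  cases ha : e.a with
  | leaf k =>
    unfold len at h
    rw [P_leaf ha] at h
    simp at h
  | pc p => rw [P_pc ha]

/-- lower end of a node -/
def lo (e : En) (l : ℕ) : ℕ := ((P e).nd l).lo

/-- upper end of a node -/
def hi (e : En) (l : ℕ) : ℕ := ((P e).nd l).hi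

/-- interior nodes -/
def In (e : En) (l : ℕ) : Prop :=
  1 ≤ l ∧ l + 1 < len e ∧ (P e).c ≤ hi e (l - 1) ∧ lo e (l + 1) ≤ (P e).d

/-- touched nodes -/
def Touch (e : En) (l : ℕ) : Prop :=
  l < len e ∧ (P e).c ≤ hi e l ∧ lo e l ≤ (P e).d ∧ (P e).c ≤ (P e).d

/-- two entries have the same word, the same index and the same first `l` nodes -/
def Eqv (e e' : En) (l : ℕ) : Prop :=
  word e.p = word e'.p ∧ (P e).i = (P e').i ∧ (P e).gs.take l = (P e').gs.take l

lemma Eqv.refl (e : En) (l : ℕ) : Eqv e e l := ⟨rfl, rfl, rfl⟩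

lemma Eqv.symm {e e' : En} {l : ℕ} (h : Eqv e e' l) : Eqv e' e l := ⟨h.1.symm, h.2.1.symm, h.2.2.symm⟩

lemma Eqv.trans {e e' e'' : En} {l : ℕ} (h : Eqv e e' l) (h' : Eqv e' e'' l) : Eqv e e'' l :=
  ⟨h.1.trans h'.1, h.2.1.trans h'.2.1, h.2.2.trans h'.2.2⟩

lemma Eqv.mono {e e' : En} {l l' : ℕ} (h : Eqv e e' l) (hl : l' ≤ l) : Eqv e e' l' := by
  refine ⟨h.1, h.2.1, ?_⟩
  have := congrArg (List.take l') h.2.2
  rwa [List.take_take, List.take_take, min_eq_left hl] at this

lemma Eqv.get {e e' : En} {l j : ℕ} (h : Eqv e e' l) (hj : j < l) : (P e).gs[j]? = (P e').gs[j]? := by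
  have h1 := congrArg (fun L : List Node => L[j]?) h.2.2
  simp only [List.getElem?_take_of_lt hj] at h1
  exact h1

lemma Eqv.nd {e e' : En} {l j : ℕ} (h : Eqv e e' l) (hj : j < l) : (P e).nd j = (P e').nd j := by
  unfold Pc.nd
  rw [List.getD_eq_getElem?_getD, List.getD_eq_getElem?_getD, h.get hj]

lemma Eqv.lt_len {e e' : En} {l j : ℕ} (h : Eqv e e' l) (hj : j < l) (hl : j < len e) : j < len e' := by
  have h1 := h.get hj
  unfold len at hl ⊢
  rw [List.getElem?_eq_getElem hl] at h1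
  by_contra hn
  rw [List.getElem?_eq_none (not_lt.1 hn)] at h1
  simp at h1

lemma Eqv.hi {e e' : En} {l j : ℕ} (h : Eqv e e' l) (hj : j < l) : hi e j = hi e' j := by
  unfold Jn.hi; rw [h.nd hj]

lemma Eqv.lo {e e' : En} {l j : ℕ} (h : Eqv e e' l) (hj : j < l) : lo e j = lo e' j := by
  unfold Jn.lo; rw [h.nd hj]

/-- an arbitrary representative of a set of entries -/
noncomputable def rep (S : Set En) : En := if h : S.Nonempty then h.some else ⟨[], .leaf 0⟩

lemma rep_mem {S : Set En} (h : S.Nonempty) : rep S ∈ S := by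
  unfold rep
  rw [dif_pos h]
  exact h.some_mem

variable (F : List En)

/-- good nodes -/
def Good (e : En) (l : ℕ) : Prop := In e l ∧ ∀ e' ∈ F, Eqv e e' l → In e' l → Eqv e e' (l + 1)

/-- start of a run -/
def Start (e : En) (l : ℕ) : Prop :=
  Good F e l ∧ (¬ Good F e (l - 1) ∨ (∃ e' ∈ F, Eqv e e' (l + 1) ∧ In e' l ∧ ¬ In e' (l - 1)) ∨
    ∃ e' ∈ F, Eqv e e' l ∧ In e' (l - 1) ∧ ¬ In e' l)

/-- the class of a complete node -/
def C (e : En) (l : ℕ) : Set En := {e' | e' ∈ F ∧ Eqv e e' (l + 1) ∧ In e' l}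

/-- the competitors at a node -/
def D (e : En) (l : ℕ) : Set En := {e' | e' ∈ F ∧ Eqv e e' l ∧ In e' l}

/-- competitors with the latest start -/
def Dmax (e : En) (l : ℕ) : Set En := {e' | e' ∈ D F e l ∧ ∀ e'' ∈ D F e l, (P e'').c ≤ (P e').c}

/-- the entry which is charged for a conflict -/
noncomputable def q (e : En) (l : ℕ) : En := rep (Dmax F e l)

/-- the divergent entries -/
def Dv (e : En) (l : ℕ) : Set En := {e' | e' ∈ F ∧ Eqv e e' l ∧ In e' l ∧ ¬ Eqv e e' (l + 1)}

/-- the divergent entry -/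
noncomputable def dv (e : En) (l : ℕ) : En := rep (Dv F e l)

variable {F}

lemma C_eq {e e' : En} {l : ℕ} (h : Eqv e e' (l + 1)) : C F e l = C F e' l := by
  ext z
  exact ⟨fun hz => ⟨hz.1, h.symm.trans hz.2.1, hz.2.2⟩, fun hz => ⟨hz.1, h.trans hz.2.1, hz.2.2⟩⟩

lemma D_eq {e e' : En} {l : ℕ} (h : Eqv e e' l) : D F e l = D F e' l := by
  ext z
  exact ⟨fun hz => ⟨hz.1, h.symm.trans hz.2.1, hz.2.2⟩, fun hz => ⟨hz.1, h.trans hz.2.1, hz.2.2⟩⟩

lemma Dmax_eq {e e' : En} {l : ℕ} (h : Eqv e e' l) : Dmax F e l = Dmax F e' l := by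
  unfold Dmax
  rw [D_eq h]

lemma Good_congr {e e' : En} {l : ℕ} (h : Eqv e e' (l + 1)) (he' : In e' l) (hg : Good F e l) :
    Good F e' l :=
  ⟨he', fun z hz h1 h2 => h.symm.trans (hg.2 z hz ((h.mono (Nat.le_succ l)).trans h1) h2)⟩

lemma Good_iff {e e' : En} {l : ℕ} (h : Eqv e e' (l + 1)) (he : In e l) (he' : In e' l) :
    Good F e l ↔ Good F e' l := ⟨Good_congr h he', Good_congr h.symm he⟩

/-- two compatible entries do not contain a common node -/
lemma T1 {e e' : En} (hcp : Cp e.a e'.a) {l : ℕ} (h : Eqv e e' (l + 1)) (hl : l < len e)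
    (hlo : lo e l ≤ hi e l) (h1 : (P e).c ≤ hi e l) (h2 : hi e l ≤ (P e).d)
    (h1' : (P e').c ≤ hi e l) (h2' : hi e l ≤ (P e').d) : False := by
  have hl' : l < len e' := h.lt_len (Nat.lt_succ_self l) hl
  rw [a_eq (lt_of_le_of_lt (Nat.zero_le l) hl), a_eq (lt_of_le_of_lt (Nat.zero_le l) hl')] at hcp
  refine hcp h.2.1 l hl hl' (h.mono (Nat.le_succ l)).2.2 (hi e l) ?_
  rw [← Pc.nd_eq _ l hl, ← Pc.nd_eq _ l hl', ← h.nd (Nat.lt_succ_self l)]
  exact ⟨hlo, le_rfl, h1, h2, hlo, le_rfl, h1', h2'⟩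

/-- coloured valid forests -/
structure CF (H b n M : ℕ) (F : List En) (col : En → ℕ) : Prop where
  val : Val (PL H) b n F
  lt : ∀ e ∈ F, col e < M
  cp : F.Pairwise (fun e e' => col e = col e' → word e.p = word e'.p → Cp e.a e'.a)
  pos : ∀ e ∈ F, joinN M ≤ e.pos

section
variable {H b n M : ℕ} {F : List En} {col : En → ℕ}

lemma CF.cp' (hF : CF H b n M F col) {e e' : En} (he : e ∈ F) (he' : e' ∈ F) (hne : e ≠ e')
    (hc : col e = col e') (hw : word e.p = word e'.p) : Cp e.a e'.a := by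
  have hs : Std.Symm (fun e e' : En => col e = col e' → word e.p = word e'.p → Cp e.a e'.a) :=
    ⟨fun a b h h1 h2 => (h h1.symm h2.symm).symm⟩
  exact hF.cp.forall he he' hne hc hw

lemma CF.pl (hF : CF H b n M F col) {e : En} (he : e ∈ F) (h : 0 < len e) : PL H (P e) :=
  hF.val.pcs e he _ (a_eq h)

lemma CF.lo_le (hF : CF H b n M F col) {e : En} (he : e ∈ F) {l : ℕ} (hl : l < len e) :
    lo e l ≤ hi e l := nd_le (hF.pl he (by omega)) hl

lemma CF.hi_lt (hF : CF H b n M F col) {e : En} (he : e ∈ F) {l l' : ℕ} (h : l < l')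
    (hl : l' < len e) : hi e l < lo e l' := nd_lt (hF.pl he (by omega)) h hl

lemma CF.hi_mono (hF : CF H b n M F col) {e : En} (he : e ∈ F) {l l' : ℕ} (h : l ≤ l')
    (hl : l' < len e) : hi e l ≤ hi e l' := by
  rcases h.eq_or_lt with rfl | h
  · exact le_rfl
  · have := hF.hi_lt he h hl
    have := hF.lo_le he hl
    omega

lemma CF.lo_mono (hF : CF H b n M F col) {e : En} (he : e ∈ F) {l l' : ℕ} (h : l ≤ l')
    (hl : l' < len e) : lo e l ≤ lo e l' := by
  rcases h.eq_or_lt with rfl | h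
  · exact le_rfl
  · have := hF.hi_lt he h hl
    have := hF.lo_le (l := l) he (by omega)
    omega

lemma In.lt {e : En} {l : ℕ} (h : In e l) : l < len e := by have := h.2.1; omega

lemma In.c_lt (hF : CF H b n M F col) {e : En} (he : e ∈ F) {l : ℕ} (h : In e l) :
    (P e).c < lo e l := by
  have h1 := h.1
  have h2 := h.2.2.1
  have h3 := hF.hi_lt he (show l - 1 < l by omega) h.lt
  omega

lemma In.lt_d (hF : CF H b n M F col) {e : En} (he : e ∈ F) {l : ℕ} (h : In e l) :
    hi e l < (P e).d := by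
  have h2 := h.2.2.2
  have h3 := hF.hi_lt he (show l < l + 1 by omega) h.2.1
  omega

lemma In.touch (hF : CF H b n M F col) {e : En} (he : e ∈ F) {l : ℕ} (h : In e l) : Touch e l := by
  have h1 := h.c_lt hF he
  have h2 := h.lt_d hF he
  have h3 := hF.lo_le he h.lt
  exact ⟨h.lt, by omega, by omega, by omega⟩

lemma In.between (hF : CF H b n M F col) {e : En} (he : e ∈ F) {l k m : ℕ} (h : In e l)
    (h' : In e m) (h1 : l ≤ k) (h2 : k ≤ m) : In e k := by
  have a1 := h.1
  have a2 := h.2.2.1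
  have b1 := h'.2.1
  have b2 := h'.2.2.2
  refine ⟨by omega, by omega, ?_, ?_⟩
  · have := hF.hi_mono he (show l - 1 ≤ k - 1 by omega) (by omega)
    omega
  · have := hF.lo_mono he (show k + 1 ≤ m + 1 by omega) b1
    omega

/-- first interior node -/
lemma In.first (hF : CF H b n M F col) {e : En} (he : e ∈ F) {l l' : ℕ} (h : In e l)
    (hn : ¬ In e (l - 1)) (h' : In e l') (hn' : ¬ In e (l' - 1)) : l = l' := by
  rcases lt_trichotomy l l' with h1 | h1 | h1
  · exact absurd (In.between hF he h h' (by omega) (by omega)) hn'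
  · exact h1
  · exact absurd (In.between hF he h' h (by omega) (by omega)) hn

/-- last interior node -/
lemma In.last (hF : CF H b n M F col) {e : En} (he : e ∈ F) {l l' : ℕ} (h : In e (l - 1))
    (hn : ¬ In e l) (h' : In e (l' - 1)) (hn' : ¬ In e l') : l = l' := by
  have a := h.1
  have a' := h'.1
  rcases lt_trichotomy l l' with h1 | h1 | h1
  · exact absurd (In.between hF he h h' (by omega) (by omega)) hn
  · exact h1
  · exact absurd (In.between hF he h' h (by omega) (by omega)) hn'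

/-- competitors have distinct colours -/
lemma CF.inj (hF : CF H b n M F col) {e e' : En} (he : e ∈ F) (he' : e' ∈ F) {l : ℕ} (hl : 1 ≤ l)
    (h : Eqv e e' l) (hc : col e = col e') (hll : l ≤ len e)
    (h1 : (P e).c ≤ hi e (l - 1)) (h2 : hi e (l - 1) ≤ (P e).d)
    (h1' : (P e').c ≤ hi e (l - 1)) (h2' : hi e (l - 1) ≤ (P e').d) : e = e' := by
  by_contra hne
  have hcp := hF.cp' he he' hne hc h.1
  have h3 : Eqv e e' (l - 1 + 1) := by rwa [Nat.sub_add_cancel hl]
  exact T1 hcp h3 (by omega) (hF.lo_le he (by omega)) h1 h2 h1' h2'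

lemma In.hi_le (hF : CF H b n M F col) {e : En} (he : e ∈ F) {l : ℕ} (h : In e l) :
    hi e (l - 1) ≤ (P e).d := by
  have h1 := h.1
  have h2 := h.lt_d hF he
  have h3 := hF.hi_mono he (show l - 1 ≤ l by omega) h.lt
  omega

lemma CF.inj_In (hF : CF H b n M F col) {e e' : En} (he : e ∈ F) (he' : e' ∈ F) {l : ℕ}
    (h : Eqv e e' l) (hc : col e = col e') (h1 : In e l) (h2 : In e' l) : e = e' := by
  have hl := h1.1
  have e1 : hi e (l - 1) = hi e' (l - 1) := h.hi (by omega)
  refine hF.inj he he' hl h hc (by have := h1.lt; omega) h1.2.2.1 (h1.hi_le hF he) ?_ ?_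
  · rw [e1]; exact h2.2.2.1
  · rw [e1]; exact h2.hi_le hF he'

/-! ### conflicts -/

lemma Dmax_ne {e : En} (he : e ∈ F) {l : ℕ} (h : In e l) :
    (Dmax F e l).Nonempty := by
  have hfin : (D F e l).Finite := by
    refine Set.Finite.subset (List.finite_toSet F) fun z hz => ?_
    exact hz.1
  have hne : (D F e l).Nonempty := ⟨e, he, Eqv.refl e l, h⟩
  obtain ⟨z, hz, hmax⟩ := Set.exists_max_image (D F e l) (fun z => (P z).c) hfin hne
  exact ⟨z, hz, hmax⟩

lemma q_mem {e : En} (he : e ∈ F) {l : ℕ} (h : In e l) :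
    q F e l ∈ Dmax F e l := rep_mem (Dmax_ne he h)

lemma Dv_ne {e : En} (he : e ∈ F) {l : ℕ} (h : In e l)
    (hg : ¬ Good F e l) : (Dv F (q F e l) l).Nonempty := by
  have hq := (q_mem he h).1
  unfold Good at hg
  push Not at hg
  obtain ⟨z, hz, h1, h2, h3⟩ := hg h
  by_cases h4 : Eqv (q F e l) e (l + 1)
  · refine ⟨z, hz, hq.2.1.symm.trans h1, h2, fun h5 => h3 (h4.symm.trans h5)⟩
  · exact ⟨e, he, hq.2.1.symm, h, h4⟩

lemma dv_mem {e : En} (he : e ∈ F) {l : ℕ} (h : In e l)
    (hg : ¬ Good F e l) : dv F (q F e l) l ∈ Dv F (q F e l) l := rep_mem (Dv_ne he h hg)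

/-- code of a conflict -/
noncomputable def cc (M : ℕ) (F : List En) (col : En → ℕ) (e : En) (l : ℕ) : ℕ :=
  col (dv F (q F e l) l) * M + col e

lemma cc_lt (hF : CF H b n M F col) {e : En} (he : e ∈ F) {l : ℕ} (h : In e l)
    (hg : ¬ Good F e l) : cc M F col e l < M ^ 2 := by
  have h1 := hF.lt _ (dv_mem he h hg).1
  have h2 := hF.lt e he
  unfold cc
  calc col (dv F (q F e l) l) * M + col e < col (dv F (q F e l) l) * M + M := by omega
    _ = (col (dv F (q F e l) l) + 1) * M := by ring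
    _ ≤ M * M := Nat.mul_le_mul_right _ h1
    _ = M ^ 2 := by ring

/-- two conflicts charged to the same entry have different divergent colours -/
lemma dv_col (hF : CF H b n M F col) {e e' : En} (he : e ∈ F) (he' : e' ∈ F) {m m' : ℕ}
    (h : In e m) (h' : In e' m') (hg : ¬ Good F e m) (hg' : ¬ Good F e' m')
    (hq : q F e m = q F e' m') (hlt : m < m')
    (hc : col (dv F (q F e m) m) = col (dv F (q F e' m') m')) : False := by
  have q1 := q_mem he h
  have q2 := q_mem he' h'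
  have p1 := dv_mem he h hg
  have p2 := dv_mem he' h' hg'
  rw [← hq] at q2 p2 hc
  set z := q F e m with hz
  set p := dv F z m with hp
  set p' := dv F z m' with hp'
  have m1 := h.1
  -- `p'` agrees with `z` at level `m + 1`
  have hzp' : Eqv z p' (m + 1) := p2.2.1.mono hlt
  have hpp' : Eqv p p' m := p1.2.1.symm.trans (hzp'.mono (Nat.le_succ m))
  have e1 : hi p (m - 1) = hi z (m - 1) := (p1.2.1.hi (by omega)).symm
  have e2 : hi p' (m - 1) = hi z (m - 1) := (hzp'.hi (by omega)).symm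
  have c1 : (P p).c ≤ (P z).c := q1.2 p ⟨p1.1, q1.1.2.1.trans p1.2.1, p1.2.2.1⟩
  have c2 : (P p').c ≤ (P z).c := q2.2 p' ⟨p2.1, q2.1.2.1.trans p2.2.1, p2.2.2.1⟩
  have c3 : (P z).c ≤ hi z (m - 1) := q1.1.2.2.2.2.1
  have d1 : hi p (m - 1) ≤ (P p).d := p1.2.2.1.hi_le hF p1.1
  have d2 : hi p' (m - 1) ≤ (P p').d := by
    have h1 := p2.2.2.1.lt_d hF p2.1
    have h2 := hF.hi_mono p2.1 (show m - 1 ≤ m' by omega) p2.2.2.1.lt
    omega
  have hpe : p = p' := by
    refine hF.inj p1.1 p2.1 m1 hpp' hc (by have := p1.2.2.1.lt; omega) (by omega) d1 (by omega)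
      (by omega)
  exact p1.2.2.2 (by rw [hpe]; exact hzp')

/-- conflicts are determined by the charged entry and the code -/
lemma cc_inj (hF : CF H b n M F col) {e e' : En} (he : e ∈ F) (he' : e' ∈ F) {m m' : ℕ}
    (h : In e m) (h' : In e' m') (hg : ¬ Good F e m) (hg' : ¬ Good F e' m')
    (hq : q F e m = q F e' m') (hc : cc M F col e m = cc M F col e' m') : e = e' ∧ m = m' := by
  have l1 := hF.lt e he
  have l2 := hF.lt e' he'
  unfold cc at hc
  have hM : 0 < M := by omega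
  have c1 : col (dv F (q F e m) m) = col (dv F (q F e' m') m') := by
    have h3 : (col (dv F (q F e m) m) * M + col e) / M =
        (col (dv F (q F e' m') m') * M + col e') / M := by rw [hc]
    rwa [Nat.mul_comm, Nat.mul_add_div hM, Nat.div_eq_of_lt l1, Nat.mul_comm _ M,
      Nat.mul_add_div hM, Nat.div_eq_of_lt l2] at h3
  have c2 : col e = col e' := by
    rw [c1] at hc
    omega
  have hmm : m = m' := by
    rcases lt_trichotomy m m' with h1 | h1 | h1
    · exact (dv_col hF he he' h h' hg hg' hq h1 c1).elim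
    · exact h1
    · exact (dv_col hF he' he h' h hg' hg hq.symm h1 c1.symm).elim
  subst hmm
  have q1 := (q_mem he h).1.2.1
  have q2 := (q_mem he' h').1.2.1
  rw [← hq] at q2
  exact ⟨hF.inj_In he he' (q1.trans q2.symm) c2 h h', rfl⟩

end

end Jn

end Pool.Agent.Helper64.Hit
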