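import Pool.Agent.Helper52.Hit.JoinA

/-!
# The join theorem, part B: node items and runs
-/

set_option autoImplicit false

open scoped Classical

namespace Pool.Agent.Helper64.Hit

namespace Jn

section
variable {H b n M : ℕ} {F : List En} {col : En → ℕ}

/-! ### node items -/

/-- the charged entry of a node item -/
noncomputable def nslot (F : List En) (e : En) (l : ℕ) : En := if In e l then q F e l else e

/-- the code of a node item -/
noncomputable def ncode (M : ℕ) (F : List En) (col : En → ℕ) (e : En) (l : ℕ) : ℕ :=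
  if In e l then 2 + cc M F col e l else if l = 0 ∨ hi e (l - 1) < (P e).c then 0 else 1

/-- node items -/
def NItem (F : List En) (e : En) (l : ℕ) : Prop :=
  e ∈ F ∧ Touch e l ∧ ¬ Good F e l ∧ (In e l → e = rep (C F e l))

lemma nitem_inj (hF : CF H b n M F col) {e e' : En} {l l' : ℕ} (h : NItem F e l)
    (h' : NItem F e' l') (hs : nslot F e l = nslot F e' l')
    (hc : ncode M F col e l = ncode M F col e' l') : e = e' ∧ l = l' := by
  obtain ⟨he, ht, hg, -⟩ := h
  obtain ⟨he', ht', hg', -⟩ := h'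
  unfold nslot at hs
  unfold ncode at hc
  by_cases h1 : In e l
  · by_cases h2 : In e' l'
    · rw [if_pos h1, if_pos h2] at hs hc
      exact cc_inj hF he he' h1 h2 hg hg' hs (by omega)
    · rw [if_pos h1, if_neg h2] at hc
      split_ifs at hc <;> omega
  · by_cases h2 : In e' l'
    · rw [if_neg h1, if_pos h2] at hc
      split_ifs at hc <;> omega
    · rw [if_neg h1, if_neg h2] at hs hc
      subst hs
      refine ⟨rfl, ?_⟩
      have hne : ∀ k k' : ℕ, Touch e k → Touch e k' → ¬ In e k → ¬ In e k' →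
          ((k = 0 ∨ hi e (k - 1) < (P e).c) ↔ (k' = 0 ∨ hi e (k' - 1) < (P e).c)) → ¬ k < k' := by
        intro k k' t1 t2 n1 n2 hiff hlt
        by_cases hz : k' = 0 ∨ hi e (k' - 1) < (P e).c
        · rcases hz with hz | hz
          · omega
          · have := hF.hi_mono he (show k ≤ k' - 1 by omega) (by have := t2.1; omega)
            have := t1.2.1
            omega
        · have hk : ¬ (k = 0 ∨ hi e (k - 1) < (P e).c) := fun hh => hz (hiff.1 hh)
          push Not at hk
          unfold In at n1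
          have h3 : k + 1 < len e := lt_of_le_of_lt hlt t2.1
          have h4 : ¬ lo e (k + 1) ≤ (P e).d := fun h5 => n1 ⟨by omega, h3, hk.2, h5⟩
          have h5 := hF.lo_mono he (show k + 1 ≤ k' by omega) t2.1
          have h6 := t2.2.2.1
          omega
      have hiff : (l = 0 ∨ hi e (l - 1) < (P e).c) ↔ (l' = 0 ∨ hi e (l' - 1) < (P e).c) := by
        by_cases a1 : l = 0 ∨ hi e (l - 1) < (P e).c
        · by_cases a2 : l' = 0 ∨ hi e (l' - 1) < (P e).c
          · exact ⟨fun _ => a2, fun _ => a1⟩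
          · rw [if_pos a1, if_neg a2] at hc; omega
        · by_cases a2 : l' = 0 ∨ hi e (l' - 1) < (P e).c
          · rw [if_neg a1, if_pos a2] at hc; omega
          · exact ⟨fun h => absurd h a1, fun h => absurd h a2⟩
      have c1 := hne l l' ht ht' h1 h2 hiff
      have c2 := hne l' l ht' ht h2 h1 hiff.symm
      omega

/-- properties of the charged entry -/
lemma nslot_spec (hF : CF H b n M F col) {e : En} {l : ℕ} (h : NItem F e l) :
    nslot F e l ∈ F ∧ word (nslot F e l).p = word e.p ∧ (P (nslot F e l)).i = (P e).i ∧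
      0 < len (nslot F e l) ∧ (P (nslot F e l)).c ≤ max (lo e l) (P e).c := by
  obtain ⟨he, ht, hg, -⟩ := h
  unfold nslot
  by_cases h1 : In e l
  · rw [if_pos h1]
    have hq := (q_mem he h1).1
    refine ⟨hq.1, hq.2.1.1.symm, hq.2.1.2.1.symm, lt_of_le_of_lt (Nat.zero_le _) hq.2.2.lt, ?_⟩
    have h2 := hq.2.2.2.2.1
    have h3 := h1.1
    have h4 : hi e (l - 1) = hi (q F e l) (l - 1) := hq.2.1.hi (by omega)
    have h5 := hF.hi_lt he (show l - 1 < l by omega) h1.lt
    omega
  · rw [if_neg h1]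
    exact ⟨he, rfl, rfl, lt_of_le_of_lt (Nat.zero_le _) ht.1, le_max_right _ _⟩

lemma ncode_lt (hF : CF H b n M F col) {e : En} {l : ℕ} (h : NItem F e l) :
    ncode M F col e l < joinN M := by
  obtain ⟨he, ht, hg, -⟩ := h
  have hj : M ^ 2 + 2 < joinN M := by unfold joinN; nlinarith [Nat.zero_le M, Nat.zero_le (M ^ 2)]
  unfold ncode
  by_cases h1 : In e l
  · rw [if_pos h1]
    have := cc_lt hF he h1 hg
    omega
  · rw [if_neg h1]
    split_ifs <;> omega

/-! ### runs -/

/-- the node `j` belongs to the run starting at `l` -/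
def RunTo (F : List En) (e : En) (l j : ℕ) : Prop :=
  l ≤ j ∧ ∀ k, l < k → k ≤ j → Good F e k ∧ ¬ Start F e k

lemma RunTo.refl (F : List En) (e : En) (l : ℕ) : RunTo F e l l := ⟨le_rfl, fun k h1 h2 => by omega⟩

lemma RunTo.mono {e : En} {l j j' : ℕ} (h : RunTo F e l j) (h1 : l ≤ j') (h2 : j' ≤ j) :
    RunTo F e l j' := ⟨h1, fun k a1 a2 => h.2 k a1 (a2.trans h2)⟩

/-- nodes which are good and not a start continue the previous node -/
lemma cont {e : En} {l : ℕ} (hg : Good F e l) (hs : ¬ Start F e l) :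
    Good F e (l - 1) ∧ (∀ e' ∈ F, Eqv e e' (l + 1) → In e' l → In e' (l - 1)) ∧
      ∀ e' ∈ F, Eqv e e' l → In e' (l - 1) → In e' l := by
  unfold Start at hs
  rw [not_and] at hs
  have h1 := hs hg
  push Not at h1
  exact h1

/-- the members of the class follow through the run -/
lemma follow {e e' : En} (he' : e' ∈ F) {l j : ℕ} (h : Eqv e e' (l + 1)) (h1 : In e l)
    (h2 : In e' l) (hr : RunTo F e l j) : Eqv e e' (j + 1) ∧ In e j ∧ In e' j := by
  obtain ⟨hlj, hr⟩ := hr
  induction j, hlj using Nat.le_induction with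
  | base => exact ⟨h, h1, h2⟩
  | succ j hlj ih =>
    obtain ⟨a1, a2, a3⟩ := ih fun k k1 k2 => hr k k1 (by omega)
    obtain ⟨g, ns⟩ := hr (j + 1) (by omega) le_rfl
    obtain ⟨-, -, c3⟩ := cont g ns
    have a4 : In e' (j + 1) := c3 e' he' a1 a3
    exact ⟨g.2 e' he' a1 a4, g.1, a4⟩

lemma Start_congr {e e' : En} (he : e ∈ F) {l : ℕ} (h : Eqv e e' (l + 1)) (h1 : In e l)
    (h2 : In e' l) (hs : Start F e l) : Start F e' l := by
  refine ⟨Good_congr h h2 hs.1, ?_⟩
  rcases hs.2 with h3 | ⟨z, hz, h3, h4, h5⟩ | ⟨z, hz, h3, h4, h5⟩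
  · by_cases h4 : In e' (l - 1)
    · by_cases h5 : In e (l - 1)
      · left
        intro hg
        apply h3
        have hl := h1.1
        exact Good_congr (h.symm.mono (show l - 1 + 1 ≤ l + 1 by omega)) h5 hg
      · right; left
        exact ⟨e, he, h.symm, h1, h5⟩
    · left
      exact fun hg => h4 hg.1
  · right; left
    exact ⟨z, hz, h.symm.trans h3, h4, h5⟩
  · right; right
    exact ⟨z, hz, (h.symm.mono (Nat.le_succ l)).trans h3, h4, h5⟩

lemma RunTo_congr {e e' : En} (he' : e' ∈ F) {l j : ℕ} (h : Eqv e e' (l + 1))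
    (h1 : In e l) (h2 : In e' l) (hr : RunTo F e l j) : RunTo F e' l j := by
  refine ⟨hr.1, fun k k1 k2 => ?_⟩
  obtain ⟨a1, a2, a3⟩ := follow he' h h1 h2 (hr.mono (by omega) k2)
  obtain ⟨g, ns⟩ := hr.2 k k1 k2
  exact ⟨Good_congr a1 a3 g, fun hs => ns (Start_congr he' a1.symm a3 a2 hs)⟩

/-- end of the run -/
noncomputable def rend (F : List En) (e : En) (l : ℕ) : ℕ :=
  Nat.findGreatest (fun j => RunTo F e l j) (len e)

lemma rend_spec {e : En} {l : ℕ} (h : In e l) : RunTo F e l (rend F e l) := by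
  have := h.lt
  exact Nat.findGreatest_spec (P := fun j => RunTo F e l j) (m := l) (by omega) (RunTo.refl F e l)

lemma In_of_RunTo {e : En} {l j : ℕ} (h : In e l) (hr : RunTo F e l j) : In e j := by
  rcases hr.1.eq_or_lt with rfl | h1
  · exact h
  · exact (hr.2 j h1 le_rfl).1.1

lemma RunTo_iff {e : En} {l j : ℕ} (h : In e l) : RunTo F e l j ↔ l ≤ j ∧ j ≤ rend F e l := by
  constructor
  · intro hr
    refine ⟨hr.1, ?_⟩
    have h1 := (In_of_RunTo h hr).lt
    exact Nat.le_findGreatest (by omega) hr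
  · rintro ⟨h1, h2⟩
    exact (rend_spec h).mono h1 h2

lemma rend_congr {e e' : En} (he : e ∈ F) (he' : e' ∈ F) {l : ℕ} (h : Eqv e e' (l + 1))
    (h1 : In e l) (h2 : In e' l) : rend F e l = rend F e' l := by
  apply le_antisymm
  · exact ((RunTo_iff h2).1 (RunTo_congr he' h h1 h2 (rend_spec h1))).2
  · exact ((RunTo_iff h1).1 (RunTo_congr he h.symm h2 h1 (rend_spec h2))).2

/-- every good node belongs to a run -/
lemma exists_start {e : En} {l : ℕ} (hg : Good F e l) : ∃ k, Start F e k ∧ RunTo F e k l := by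
  induction l using Nat.strong_induction_on with
  | _ l ih =>
    by_cases hs : Start F e l
    · exact ⟨l, hs, RunTo.refl F e l⟩
    · have h1 := (cont hg hs).1
      have hl := hg.1.1
      obtain ⟨k, hk, hr⟩ := ih (l - 1) (by omega) h1
      refine ⟨k, hk, by have := hr.1; omega, fun m m1 m2 => ?_⟩
      rcases Nat.lt_or_ge m l with h2 | h2
      · exact hr.2 m m1 (by omega)
      · obtain rfl : m = l := by omega
        exact ⟨hg, hs⟩

lemma start_unique {e : En} {k k' l : ℕ} (h : Start F e k) (hr : RunTo F e k l)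
    (h' : Start F e k') (hr' : RunTo F e k' l) : k = k' := by
  rcases lt_trichotomy k k' with h1 | h1 | h1
  · exact absurd h' (hr.2 k' h1 hr'.1).2
  · exact h1
  · exact absurd h (hr'.2 k h1 hr.1).2

/-- two runs with a common node are equal -/
lemma run_common {e e' : En} (he : e ∈ F) (he' : e' ∈ F) {k k' l : ℕ} (h : Start F e k)
    (hr : RunTo F e k l) (h' : Start F e' k') (hr' : RunTo F e' k' l) (hE : Eqv e e' (l + 1)) :
    k = k' := by
  rcases lt_trichotomy k k' with h1 | h1 | h1
  · have g := hr.2 k' h1 hr'.1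
    exact absurd (Start_congr he' (hE.symm.mono (by have := hr'.1; omega)) h'.1.1 g.1.1 h') g.2
  · exact h1
  · have g := hr'.2 k h1 hr.1
    exact absurd (Start_congr he (hE.mono (by have := hr.1; omega)) h.1.1 g.1.1 h) g.2

/-! ### run items -/

/-- members of the class which start here -/
def RA (F : List En) (e : En) (l : ℕ) : Set En :=
  {e' | e' ∈ F ∧ Eqv e e' (l + 1) ∧ In e' l ∧ ¬ In e' (l - 1)}

/-- entries which end just before -/
def RC (F : List En) (e : En) (l : ℕ) : Set En :=
  {e' | e' ∈ F ∧ Eqv e e' l ∧ In e' (l - 1) ∧ ¬ In e' l}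

/-- the charged entry of a run -/
noncomputable def rslot (F : List En) (e : En) (l : ℕ) : En :=
  if (RA F e l).Nonempty then rep (RA F e l) else
    if (RC F e l).Nonempty then rep (RC F e l) else q F e (l - 1)

/-- the code of a run -/
noncomputable def rcode (M : ℕ) (F : List En) (col : En → ℕ) (e : En) (l : ℕ) : ℕ :=
  if (RA F e l).Nonempty then 2 + M ^ 2 else
    if (RC F e l).Nonempty then 3 + M ^ 2 else 4 + M ^ 2 + cc M F col e (l - 1)

/-- run items -/
def RItem (F : List En) (e : En) (l : ℕ) : Prop := e ∈ F ∧ Start F e l ∧ e = rep (C F e l)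

/-- the last case -/
lemma RItem.caseb {e : En} {l : ℕ} (he : e ∈ F) (h : Start F e l) (hA : ¬ (RA F e l).Nonempty)
    (hC : ¬ (RC F e l).Nonempty) : In e (l - 1) ∧ ¬ Good F e (l - 1) := by
  have h1 : In e (l - 1) := by
    by_contra hn
    exact hA ⟨e, he, Eqv.refl _ _, h.1.1, hn⟩
  refine ⟨h1, ?_⟩
  rcases h.2 with h3 | ⟨z, hz, h3, h4, h5⟩ | ⟨z, hz, h3, h4, h5⟩
  · exact h3
  · exact absurd ⟨z, hz, h3, h4, h5⟩ hA
  · exact absurd ⟨z, hz, h3, h4, h5⟩ hC

lemma ritem_inj (hF : CF H b n M F col) {e e' : En} {l l' : ℕ} (h : RItem F e l)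
    (h' : RItem F e' l') (hs : rslot F e l = rslot F e' l')
    (hc : rcode M F col e l = rcode M F col e' l') : e = e' ∧ l = l' := by
  obtain ⟨he, hst, hr⟩ := h
  obtain ⟨he', hst', hr'⟩ := h'
  have fin : l = l' → Eqv e e' (l + 1) → e = e' ∧ l = l' := by
    rintro rfl hE
    refine ⟨?_, rfl⟩
    rw [hr, hr', C_eq hE]
  unfold rslot at hs
  unfold rcode at hc
  by_cases hA : (RA F e l).Nonempty
  · by_cases hA' : (RA F e' l').Nonempty
    · rw [if_pos hA, if_pos hA'] at hs
      have m1 := rep_mem hA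
      have m2 := rep_mem hA'
      rw [← hs] at m2
      have hl : l = l' := In.first hF m1.1 m1.2.2.1 m1.2.2.2 m2.2.2.1 m2.2.2.2
      refine fin hl ?_
      subst hl
      exact m1.2.1.trans m2.2.1.symm
    · rw [if_pos hA, if_neg hA'] at hc
      split_ifs at hc <;> omega
  · by_cases hA' : (RA F e' l').Nonempty
    · rw [if_neg hA, if_pos hA'] at hc
      split_ifs at hc <;> omega
    · rw [if_neg hA, if_neg hA'] at hs hc
      by_cases hC : (RC F e l).Nonempty
      · by_cases hC' : (RC F e' l').Nonempty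
        · rw [if_pos hC, if_pos hC'] at hs
          have m1 := rep_mem hC
          have m2 := rep_mem hC'
          rw [← hs] at m2
          have hl : l = l' := In.last hF m1.1 m1.2.2.1 m1.2.2.2 m2.2.2.1 m2.2.2.2
          refine fin hl ?_
          subst hl
          exact hst.1.2 e' he' (m1.2.1.trans m2.2.1.symm) hst'.1.1
        · rw [if_pos hC, if_neg hC'] at hc
          omega
      · by_cases hC' : (RC F e' l').Nonempty
        · rw [if_neg hC, if_pos hC'] at hc
          omega
        · rw [if_neg hC, if_neg hC'] at hs hc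
          obtain ⟨b1, b2⟩ := RItem.caseb he hst hA hC
          obtain ⟨b1', b2'⟩ := RItem.caseb he' hst' hA' hC'
          have key := cc_inj hF he he' b1 b1' b2 b2' hs (by omega)
          have := hst.1.1.1
          have := hst'.1.1.1
          exact ⟨key.1, by omega⟩

/-- properties of the charged entry of a run -/
lemma rslot_spec (hF : CF H b n M F col) {e : En} {l : ℕ} (he : e ∈ F) (h : Start F e l) :
    rslot F e l ∈ F ∧ word (rslot F e l).p = word e.p ∧ (P (rslot F e l)).i = (P e).i ∧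
      0 < len (rslot F e l) ∧ (P (rslot F e l)).c ≤ lo e l := by
  have hl := h.1.1.1
  have hlt := h.1.1.lt
  have key : ∀ (z : En) (m : ℕ), z ∈ F → Eqv e z m → In z m → m ≤ l →
      z ∈ F ∧ word z.p = word e.p ∧ (P z).i = (P e).i ∧ 0 < len z ∧ (P z).c ≤ lo e l := by
    intro z m hz hE hI hm
    refine ⟨hz, hE.1.symm, hE.2.1.symm, lt_of_le_of_lt (Nat.zero_le _) hI.lt, ?_⟩
    have h1 := hI.2.2.1
    have h2 := hI.1
    have h3 : hi e (m - 1) = hi z (m - 1) := hE.hi (by omega)
    have h4 := hF.hi_lt he (show m - 1 < l by omega) hlt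
    omega
  unfold rslot
  by_cases hA : (RA F e l).Nonempty
  · rw [if_pos hA]
    have m1 := rep_mem hA
    exact key _ l m1.1 (m1.2.1.mono (Nat.le_succ l)) m1.2.2.1 le_rfl
  · rw [if_neg hA]
    by_cases hC : (RC F e l).Nonempty
    · rw [if_pos hC]
      have m1 := rep_mem hC
      exact key _ (l - 1) m1.1 (m1.2.1.mono (Nat.sub_le l 1)) m1.2.2.1 (Nat.sub_le l 1)
    · rw [if_neg hC]
      obtain ⟨b1, b2⟩ := RItem.caseb he h hA hC
      have hq := (q_mem he b1).1
      exact key _ (l - 1) hq.1 hq.2.1 hq.2.2 (Nat.sub_le l 1)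

lemma rcode_lt (hF : CF H b n M F col) {e : En} {l : ℕ} (he : e ∈ F) (h : Start F e l) :
    rcode M F col e l < joinN M := by
  have hj : 2 * M ^ 2 + 4 < joinN M := by unfold joinN; nlinarith [Nat.zero_le M, Nat.zero_le (M ^ 2)]
  unfold rcode
  by_cases hA : (RA F e l).Nonempty
  · rw [if_pos hA]; omega
  · rw [if_neg hA]
    by_cases hC : (RC F e l).Nonempty
    · rw [if_pos hC]; omega
    · rw [if_neg hC]
      obtain ⟨b1, b2⟩ := RItem.caseb he h hA hC
      have := cc_lt hF he b1 b2
      omega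

end

end Jn

end Pool.Agent.Helper64.Hit
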