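import Pool.Agent.Helper52.Hit.JoinB

/-!
# The join theorem, part C: domination of a piece by its runs and its remaining nodes
-/

set_option autoImplicit false

open scoped Classical

namespace Pool.Agent.Helper64.Hit

namespace Jn

lemma pr_res_full {f : ℕ →₀ ℚ} {a b : ℕ} (h : ∀ k, f k ≠ 0 → a ≤ k ∧ k ≤ b) (x : ℕ →₀ ℝ) :
    pr f (res a b x) = pr f x := by
  rw [pr_eq_sum _ _ _ subset_rfl, pr_eq_sum _ _ _ subset_rfl]
  refine Finset.sum_congr rfl fun k hk => ?_
  rw [res_apply, if_pos (h k (by simpa using hk))]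

lemma pr_res_zero {f : ℕ →₀ ℚ} {a b : ℕ} (h : ∀ k, f k ≠ 0 → ¬ (a ≤ k ∧ k ≤ b)) (x : ℕ →₀ ℝ) :
    pr f (res a b x) = 0 := by
  rw [pr_eq_sum _ _ _ subset_rfl]
  refine Finset.sum_eq_zero fun k hk => ?_
  rw [res_apply, if_neg (h k (by simpa using hk)), mul_zero]

/-- the run as a piece -/
noncomputable def run (F : List En) (e : En) (l : ℕ) : Pc :=
  ⟨(P e).i, (P e).gs, lo e l, hi e (rend F e l)⟩

section
variable {H b n M : ℕ} {F : List En} {col : En → ℕ}

lemma CF.supp (hF : CF H b n M F col) {e : En} (he : e ∈ F) {l : ℕ} (hl : l < len e) {k : ℕ}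
    (hk : ((P e).nd l).f k ≠ 0) : lo e l ≤ k ∧ k ≤ hi e l :=
  (Tr_spec ((hF.pl he (by omega)).node' hl)).2.2.2.1 k hk

/-- value of a run -/
lemma run_val (hF : CF H b n M F col) {e : En} (he : e ∈ F) {l : ℕ} (h : Start F e l)
    (x : ℕ →₀ ℝ) : (At.pc (run F e l)).val x =
      (1 / (v (P e).i : ℝ)) * ∑ j ∈ Finset.Icc l (rend F e l), pr ((P e).nd j).f x := by
  have hr := rend_spec (F := F) h.1.1
  have hlt : rend F e l < len e := (In_of_RunTo h.1.1 hr).lt
  rw [val_pc]
  show (1 / (v (P e).i : ℝ)) * pr (sumf (P e).gs) (res (lo e l) (hi e (rend F e l)) x) = _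
  congr 1
  rw [sumf_eq]
  have hsub : Finset.Icc l (rend F e l) ⊆ Finset.range (P e).gs.length := by
    intro j hj
    rw [Finset.mem_Icc] at hj
    rw [Finset.mem_range]
    exact lt_of_le_of_lt hj.2 hlt
  rw [← Finset.sum_subset hsub]
  · refine Finset.sum_congr rfl fun j hj => ?_
    rw [Finset.mem_Icc] at hj
    have hj' : j < len e := lt_of_le_of_lt hj.2 hlt
    refine pr_res_full (fun k hk => ?_) x
    have h1 := hF.supp he hj' hk
    have h2 := hF.lo_mono he hj.1 hj'
    have h3 := hF.hi_mono he hj.2 hlt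
    omega
  · intro j hj hj'
    rw [Finset.mem_range] at hj
    rw [Finset.mem_Icc] at hj'
    refine pr_res_zero (fun k hk hk' => ?_) x
    have h1 := hF.supp he hj hk
    have hll : l < len e := h.1.1.lt
    rcases Nat.lt_or_ge j l with h2 | h2
    · have := hF.hi_lt he h2 hll
      omega
    · have := hF.hi_lt he (show rend F e l < j by omega) hj
      omega

/-- the value of a run only depends on the class -/
lemma run_val_congr (hF : CF H b n M F col) {e e' : En} (he : e ∈ F) (he' : e' ∈ F) {l : ℕ}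
    (hE : Eqv e e' (l + 1)) (h : Start F e l) (h2 : In e' l) (x : ℕ →₀ ℝ) :
    (At.pc (run F e l)).val x = (At.pc (run F e' l)).val x := by
  have h' := Start_congr he hE h.1.1 h2 h
  rw [run_val hF he h, run_val hF he' h', rend_congr he he' hE h.1.1 h2, hE.2.1]
  congr 1
  refine Finset.sum_congr rfl fun j hj => ?_
  rw [Finset.mem_Icc, ← rend_congr he he' hE h.1.1 h2] at hj
  have h3 := (follow he' hE h.1.1 h2 ((rend_spec h.1.1).mono hj.1 hj.2)).1
  rw [h3.nd (Nat.lt_succ_self j)]

/-- the forest of a complete node only depends on the class -/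
lemma ndT_congr (hF : CF H b n M F col) {e e' : En} (he : e ∈ F) (he' : e' ∈ F) {l : ℕ}
    (hE : Eqv e e' (l + 1)) (h1 : In e l) (h2 : In e' l) : ndT (P e) l = ndT (P e') l := by
  have a1 := h1.c_lt hF he
  have a2 := h1.lt_d hF he
  have b1 := h2.c_lt hF he'
  have b2 := h2.lt_d hF he'
  have n1 : (P e).nd l = (P e').nd l := hE.nd (Nat.lt_succ_self l)
  have s1 : (P e).sg l = (P e').sg l := by
    unfold Pc.sg
    rw [hE.2.1, (hE.mono (Nat.le_succ l)).2.2]
  unfold ndT
  unfold lo at a1 b1
  unfold hi at a2 b2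
  rw [max_eq_left a1.le, max_eq_left b1.le, min_eq_left a2.le, min_eq_left b2.le, n1, s1, hE.2.1]

/-- the starts of an entry -/
noncomputable def starts (F : List En) (e : En) : Finset ℕ :=
  (Finset.range (len e + 1)).filter fun l => Start F e l

/-- the remaining nodes -/
noncomputable def others (F : List En) (e : En) : Finset ℕ :=
  (Finset.range (len e + 1)).filter fun l => Touch e l ∧ ¬ Good F e l

lemma mem_starts {e : En} {l : ℕ} : l ∈ starts F e ↔ Start F e l := by
  unfold starts
  rw [Finset.mem_filter, Finset.mem_range]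
  exact ⟨fun h => h.2, fun h => ⟨by have := h.1.1.lt; omega, h⟩⟩

lemma mem_others {e : En} {l : ℕ} : l ∈ others F e ↔ Touch e l ∧ ¬ Good F e l := by
  unfold others
  rw [Finset.mem_filter, Finset.mem_range]
  exact ⟨fun h => h.2, fun h => ⟨by have := h.1.1; omega, h⟩⟩

/-- domination of a piece -/
lemma piece_dom (hF : CF H b n M F col) {e : En} (he : e ∈ F) (hl : 0 < len e) (x : ℕ →₀ ℝ) :
    |e.a.val x| ≤ ∑ l ∈ starts F e, |(At.pc (run F e l)).val x| +
      ∑ l ∈ others F e, 1 / (v (P e).i : ℝ) * Phi (ndT (P e) l) x := by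
  have hpl := hF.pl he hl
  have hv : (0 : ℝ) ≤ 1 / (v (P e).i : ℝ) := by positivity
  set c := (P e).c with hc
  set d := (P e).d with hd
  -- the value as a sum over the nodes
  have e1 : e.a.val x = 1 / (v (P e).i : ℝ) *
      ∑ l ∈ Finset.range (len e), pr ((P e).nd l).f (res c d x) := by
    rw [a_eq hl, val_pc, sumf_eq]
    rfl
  -- splitting of the nodes
  have e2 : ∑ l ∈ Finset.range (len e), pr ((P e).nd l).f (res c d x) =
      ∑ l ∈ (Finset.range (len e)).filter (fun l => Good F e l), pr ((P e).nd l).f (res c d x) +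
      ∑ l ∈ others F e, pr ((P e).nd l).f (res c d x) := by
    rw [← Finset.sum_filter_add_sum_filter_not (Finset.range (len e)) (fun l => Good F e l)]
    congr 1
    have hsub : others F e ⊆ (Finset.range (len e)).filter (fun l => ¬ Good F e l) := by
      intro l hl
      rw [mem_others] at hl
      rw [Finset.mem_filter, Finset.mem_range]
      exact ⟨hl.1.1, hl.2⟩
    symm
    apply Finset.sum_subset hsub
    intro l h1 h2
    rw [Finset.mem_filter, Finset.mem_range] at h1
    rw [mem_others] at h2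
    have h3 : ¬ Touch e l := fun h => h2 ⟨h, h1.2⟩
    refine pr_res_zero (fun k hk hk' => h3 ?_) x
    have h4 := hF.supp he h1.1 hk
    refine ⟨h1.1, ?_, ?_, ?_⟩ <;> omega
  -- the good nodes
  have e3 : ∑ l ∈ (Finset.range (len e)).filter (fun l => Good F e l), pr ((P e).nd l).f (res c d x) =
      ∑ l ∈ starts F e, ∑ j ∈ Finset.Icc l (rend F e l), pr ((P e).nd j).f x := by
    have h0 : ∑ l ∈ (Finset.range (len e)).filter (fun l => Good F e l),
        pr ((P e).nd l).f (res c d x) =
        ∑ l ∈ (Finset.range (len e)).filter (fun l => Good F e l), pr ((P e).nd l).f x := by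
      refine Finset.sum_congr rfl fun l hl => ?_
      rw [Finset.mem_filter, Finset.mem_range] at hl
      refine pr_res_full (fun k hk => ?_) x
      have h1 := hF.supp he hl.1 hk
      have h2 := hl.2.1.c_lt hF he
      have h3 := hl.2.1.lt_d hF he
      omega
    rw [h0]
    have hU : (Finset.range (len e)).filter (fun l => Good F e l) =
        (starts F e).biUnion fun l => Finset.Icc l (rend F e l) := by
      ext j
      rw [Finset.mem_filter, Finset.mem_range, Finset.mem_biUnion]
      constructor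
      · rintro ⟨h1, h2⟩
        obtain ⟨k, hk, hr⟩ := exists_start h2
        refine ⟨k, mem_starts.2 hk, ?_⟩
        rw [Finset.mem_Icc]
        exact (RunTo_iff hk.1.1).1 hr
      · rintro ⟨k, hk, hj⟩
        rw [mem_starts] at hk
        rw [Finset.mem_Icc] at hj
        have hr := (RunTo_iff hk.1.1).2 hj
        have hI := In_of_RunTo hk.1.1 hr
        refine ⟨hI.lt, ?_⟩
        rcases hj.1.eq_or_lt with rfl | h1
        · exact hk.1
        · exact (hr.2 j h1 le_rfl).1
    rw [hU, Finset.sum_biUnion]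
    intro k hk k' hk' hne
    rw [Function.onFun, Finset.disjoint_left]
    intro j hj hj'
    rw [Finset.mem_Icc] at hj hj'
    have hk1 := mem_starts.1 (Finset.mem_coe.1 hk)
    have hk1' := mem_starts.1 (Finset.mem_coe.1 hk')
    exact hne (start_unique hk1 ((RunTo_iff hk1.1.1).2 hj) hk1' ((RunTo_iff hk1'.1.1).2 hj'))
  rw [e1, e2, e3, mul_add, Finset.mul_sum, Finset.mul_sum]
  refine (abs_add_le _ _).trans (add_le_add ?_ ?_)
  · refine (Finset.abs_sum_le_sum_abs _ _).trans (le_of_eq (Finset.sum_congr rfl fun l hl => ?_))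
    rw [run_val hF he (mem_starts.1 hl)]
  · refine (Finset.abs_sum_le_sum_abs _ _).trans (Finset.sum_le_sum fun l hl => ?_)
    rw [abs_mul, abs_of_nonneg hv]
    refine mul_le_mul_of_nonneg_left ?_ hv
    exact ndT_dom hpl (mem_others.1 hl).1.1 x

end

end Jn

end Pool.Agent.Helper64.Hit
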