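import Pool.Agent.Helper52.Hit.JoinC

/-!
# The join theorem, part D: the base forest and the forests of the remaining nodes
-/

set_option autoImplicit false

open scoped Classical

namespace Pool.Agent.Helper64.Hit

namespace Jn

/-! ### words -/

lemma le_ctx {b : ℕ} {u : List Let} (h : Rec b u) : b ≤ ctx b u := by
  induction u generalizing b with
  | nil => simp
  | cons a u ih => cases a with
    | E j => simp only [Rec_E, ctx_E] at h ⊢; exact ih h
    | C i => simp only [Rec_C, ctx_C] at h ⊢; exact (le_max_left _ _).trans (ih h)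
    | L i =>
      simp only [Rec_L, ctx_L] at h ⊢
      have := ih h.2
      omega

lemma not_mem_of_ctx {b i : ℕ} {u : List Let} (h : Rec b u) (hc : ctx b u ≤ i) :
    Let.L i ∉ u := by
  induction u generalizing b with
  | nil => simp
  | cons a u ih =>
    rw [List.mem_cons, not_or]
    cases a with
    | E j => simp only [Rec_E, ctx_E] at h hc; exact ⟨by simp, ih h hc⟩
    | C j => simp only [Rec_C, ctx_C] at h hc; exact ⟨by simp, ih h hc⟩
    | L j =>
      simp only [Rec_L, ctx_L] at h hc
      refine ⟨?_, ih h.2 hc⟩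
      have := le_ctx h.2
      intro he
      simp only [Let.L.injEq] at he
      omega

lemma word_split {i : ℕ} {u u' w w' : List Let} (hu : Let.L i ∉ u) (hu' : Let.L i ∉ u')
    (h : u ++ .E 0 :: .L i :: w = u' ++ .E 0 :: .L i :: w') : u = u' ∧ w = w' := by
  induction u generalizing u' with
  | nil => cases u' with
    | nil => simpa using h
    | cons a t =>
      exfalso
      simp only [List.nil_append, List.cons_append, List.cons.injEq] at h
      obtain ⟨rfl, h⟩ := h
      cases t with
      | nil => simp at h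
      | cons a' t =>
        simp only [List.cons_append, List.cons.injEq] at h
        exact hu' (by rw [h.1]; simp)
  | cons a u ih => cases u' with
    | nil =>
      exfalso
      simp only [List.nil_append, List.cons_append, List.cons.injEq] at h
      obtain ⟨rfl, h⟩ := h
      cases u with
      | nil => simp at h
      | cons a' t =>
        simp only [List.cons_append, List.cons.injEq] at h
        exact hu (by rw [← h.1]; simp)
    | cons a' u' =>
      simp only [List.cons_append, List.cons.injEq] at h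
      obtain ⟨rfl, h⟩ := h
      rw [List.mem_cons, not_or] at hu hu'
      obtain ⟨h1, h2⟩ := ih hu.2 hu'.2 h
      exact ⟨by rw [h1], h2⟩

/-! ### items -/

/-- items -/
noncomputable def items (F : List En) (p : En → ℕ → Prop) : Finset (Σ _ : En, ℕ) :=
  (F.toFinset.sigma fun e => Finset.range (len e + 1)).filter fun a => p a.1 a.2

lemma mem_items {F : List En} {p : En → ℕ → Prop} {a : Σ _ : En, ℕ} :
    a ∈ items F p ↔ a.1 ∈ F ∧ a.2 ≤ len a.1 ∧ p a.1 a.2 := by
  unfold items
  rw [Finset.mem_filter, Finset.mem_sigma, List.mem_toFinset, Finset.mem_range, Nat.lt_succ_iff,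
    and_assoc]

section
variable {H b n M : ℕ} {F : List En} {col : En → ℕ}

lemma CF.pos_eq {e : En} (h : 0 < len e) : e.pos = (P e).c := by
  unfold En.pos
  rw [a_eq h]
  rfl

/-- divergence of the new paths -/
lemma charge_div (hF : CF H b n M F col) {z z' : En} (hz : z ∈ F) (hz' : z' ∈ F) {c c' m m' : ℕ}
    (hne : ¬ (z = z' ∧ c = c')) (h1 : z.pos ≤ m) (h1' : z'.pos ≤ m') (h2 : c < joinN M)
    (h2' : c' < joinN M) (t t' : List Sym) :
    Div m m' (z.p ++ .lt (.E 0) :: .nm c :: t) (z'.p ++ .lt (.E 0) :: .nm c' :: t') := by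
  by_cases hzz : z = z'
  · subst hzz
    have hc : c ≠ c' := fun h => hne ⟨rfl, h⟩
    have p1 := hF.pos z hz
    simp only [Div_append_left, Div_lt_lt, Div_nm_nm, if_neg hc, true_and]
    omega
  · have hs : Std.Symm (fun e e' : En => Div e.pos e'.pos e.p e'.p) := ⟨fun a b h => h.symm⟩
    exact ((hF.val.div.forall hz hz' hzz).mono h1 h1').append _ _

/-- well-formedness of the new paths -/
lemma wf_new (hF : CF H b n M F col) {z : En} (hz : z ∈ F) (c : ℕ) {t : List Sym} (ht : WF 0 t) :
    WF n (z.p ++ .lt (.E 0) :: .nm c :: t) := by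
  refine WF_append (hF.val.wf z hz) ?_
  rw [WF_zero_lt]
  show WF (rn 0) _
  rw [rn_zero, WF_succ_nm]
  exact ht

lemma ok_slot (hF : CF H b n M F col) {z : En} (hz : z ∈ F) (hl : 0 < len z) :
    ctx b (word z.p) ≤ (P z).i := by
  have := hF.val.ok z hz
  rw [a_eq hl] at this
  exact this

lemma notL (hF : CF H b n M F col) {z : En} (hz : z ∈ F) (hl : 0 < len z) :
    Let.L (P z).i ∉ word z.p := not_mem_of_ctx (hF.val.rc z hz) (ok_slot hF hz hl)

/-- cross compatibility of the trees of nodes -/
lemma cross (hF : CF H b n M F col) {e e' : En} (he : e ∈ F) (he' : e' ∈ F) {l l' : ℕ}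
    (hl : l < len e) (hl' : l' < len e') (hne : ¬ (e = e' ∧ l = l')) (hi : (P e).i = (P e').i)
    (hcp : e ≠ e' → Cp e.a e'.a) {z z' : En} (hz : z ∈ ndT (P e) l) (hz' : z' ∈ ndT (P e') l')
    (hw : word z.p = word z'.p) : Cp z.a z'.a := by
  have p1 := hF.pl he (by omega)
  have p2 := hF.pl he' (by omega)
  by_cases hee : e = e'
  · subst hee
    have hll : l ≠ l' := fun h => hne ⟨rfl, h⟩
    refine Cp.of_disj (mem_ndT hz) (mem_ndT hz') fun k hk => ?_
    rcases Nat.lt_or_gt_of_ne hll with h3 | h3
    · have := nd_lt p1 h3 hl'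
      omega
    · have := nd_lt p1 h3 hl
      omega
  · have h1 := hcp hee
    rw [a_eq (e := e) (by omega), a_eq (e := e') (by omega)] at h1
    exact ndT_cross p1 p2 hi h1 hl hl' hz hz' hw

/-! ### the forests of the remaining nodes -/

/-- node items of index `i` -/
noncomputable def NI (F : List En) (i : ℕ) : Finset (Σ _ : En, ℕ) :=
  items F fun e l => NItem F e l ∧ (P e).i = i

/-- paths of node items -/
noncomputable def nπ (M : ℕ) (F : List En) (col : En → ℕ) (i : ℕ) (a : Σ _ : En, ℕ) : List Sym :=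
  (nslot F a.1 a.2).p ++ [.lt (.E 0), .nm (ncode M F col a.1 a.2), .lt (.L i)]

/-- trees of node items -/
noncomputable def nG (a : Σ _ : En, ℕ) : List En := ndT (P a.1) a.2

/-- the forest of a list of node items -/
noncomputable def SUB (M : ℕ) (F : List En) (col : En → ℕ) (i : ℕ) (L : List (Σ _ : En, ℕ)) :
    List En := bind L (nπ M F col i) nG

lemma mem_NI {i : ℕ} {a : Σ _ : En, ℕ} : a ∈ NI F i ↔ NItem F a.1 a.2 ∧ (P a.1).i = i := by
  unfold NI
  rw [mem_items]
  exact ⟨fun h => h.2.2, fun h => ⟨h.1.1, h.1.2.1.1.le, h⟩⟩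

lemma word_nπ (i : ℕ) (a : Σ _ : En, ℕ) :
    word (nπ M F col i a) = word (nslot F a.1 a.2).p ++ [.E 0, .L i] := by
  unfold nπ
  simp

lemma nslot_pos (hF : CF H b n M F col) {a : Σ _ : En, ℕ} (ha : NItem F a.1 a.2) {e : En}
    (he : e ∈ nG a) : (nslot F a.1 a.2).pos ≤ e.pos := by
  have h1 := nslot_spec hF ha
  rw [CF.pos_eq h1.2.2.2.1]
  exact h1.2.2.2.2.trans (ndT_pos he)

lemma ndiv (hF : CF H b n M F col) {i : ℕ} {a a' : Σ _ : En, ℕ} (ha : a ∈ NI F i)
    (ha' : a' ∈ NI F i) (hne : a ≠ a') {e e' : En} (he : e ∈ nG a) (he' : e' ∈ nG a') :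
    Div e.pos e'.pos (nπ M F col i a) (nπ M F col i a') := by
  rw [mem_NI] at ha ha'
  have s1 := nslot_spec hF ha.1
  have s2 := nslot_spec hF ha'.1
  refine charge_div hF s1.1 s2.1 ?_ (nslot_pos hF ha.1 he) (nslot_pos hF ha'.1 he')
    (ncode_lt hF ha.1) (ncode_lt hF ha'.1) _ _
  rintro ⟨h1, h2⟩
  obtain ⟨h3, h4⟩ := nitem_inj hF ha.1 ha'.1 h1 h2
  exact hne (Sigma.ext h3 (heq_of_eq h4))

lemma SUB_val (hF : CF H b n M F col) (i : ℕ) :
    Val (PL (H - 1)) b n (SUB M F col i (NI F i).toList) := by
  refine Val_bind 0 ?_ ?_ ?_ ?_ ?_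
  · intro a ha
    rw [Finset.mem_toList, mem_NI] at ha
    rw [word_nπ, ctx_append, ctx_E, ctx_L, ctx_nil]
    have h1 := ndT_val (hF.pl ha.1.1 (lt_of_le_of_lt (Nat.zero_le _) ha.1.2.1.1)) ha.1.2.1.1
    rw [ha.2] at h1
    exact h1
  · intro a ha q hq
    rw [Finset.mem_toList, mem_NI] at ha
    have s1 := nslot_spec hF ha.1
    unfold nπ
    rw [List.append_assoc]
    refine wf_new hF s1.1 _ ?_
    show WF 0 (.lt (.L i) :: q)
    rw [WF_zero_lt]
    exact hq
  · intro a ha e he k hk
    rw [Finset.mem_toList, mem_NI] at ha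
    have s1 := nslot_spec hF ha.1
    have s2 := nslot_pos hF ha.1 he
    unfold nπ at hk
    rw [List.mem_append] at hk
    rcases hk with hk | hk
    · exact (hF.val.self _ s1.1 k hk).trans s2
    · simp only [List.mem_cons, reduceCtorEq, Sym.nm.injEq, List.not_mem_nil, or_false,
        false_or] at hk
      have h1 := ncode_lt hF ha.1
      have h2 := hF.pos _ s1.1
      omega
  · intro a ha
    rw [Finset.mem_toList, mem_NI] at ha
    have s1 := nslot_spec hF ha.1
    rw [word_nπ, Rec_append, Rec_E, Rec_L]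
    refine ⟨hF.val.rc _ s1.1, ?_, ?_⟩
    · have := ok_slot hF s1.1 s1.2.2.2.1
      rw [s1.2.2.1, ha.2] at this
      exact this
    · rw [Rec_nil]
      trivial
  · refine List.Pairwise.imp_of_mem (fun {a a'} ha ha' hne e he e' he' => ?_)
      (Finset.nodup_toList (NI F i))
    rw [Finset.mem_toList] at ha ha'
    exact ndiv hF ha ha' hne he he'

/-- words of entries of the new forest -/
lemma SUB_word (hF : CF H b n M F col) {i : ℕ} {a a' : Σ _ : En, ℕ} (ha : a ∈ NI F i)
    (ha' : a' ∈ NI F i) {w w' : List Let}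
    (hw : word (nπ M F col i a) ++ w = word (nπ M F col i a') ++ w') :
    word a.1.p = word a'.1.p ∧ w = w' := by
  rw [mem_NI] at ha ha'
  have s1 := nslot_spec hF ha.1
  have s2 := nslot_spec hF ha'.1
  rw [word_nπ, word_nπ, List.append_assoc, List.append_assoc] at hw
  have n1 := notL hF s1.1 s1.2.2.2.1
  have n2 := notL hF s2.1 s2.2.2.2.1
  rw [s1.2.2.1, ha.2] at n1
  rw [s2.2.2.1, ha'.2] at n2
  obtain ⟨h1, h2⟩ := word_split n1 n2 (by simpa using hw)
  rw [s1.2.1, s2.2.1] at h1
  exact ⟨h1, h2⟩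

/-- colours of the new forest -/
noncomputable def ncol (M : ℕ) (F : List En) (col : En → ℕ) (i : ℕ) (z : En) : ℕ :=
  if h : ∃ a ∈ NI F i, ∃ e ∈ nG a, z = e.pre (nπ M F col i a) then col h.choose.1 else 0

lemma ncol_eq (hF : CF H b n M F col) {i : ℕ} {a : Σ _ : En, ℕ} (ha : a ∈ NI F i) {e : En}
    (he : e ∈ nG a) : ncol M F col i (e.pre (nπ M F col i a)) = col a.1 := by
  have hex : ∃ a' ∈ NI F i, ∃ e' ∈ nG a', e.pre (nπ M F col i a) = e'.pre (nπ M F col i a') :=
    ⟨a, ha, e, he, rfl⟩
  unfold ncol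
  rw [dif_pos hex]
  obtain ⟨h1, e', he', h2⟩ := hex.choose_spec
  by_cases hne : a = hex.choose
  · rw [← hne]
  · exfalso
    have h3 := (ndiv hF ha h1 hne he he').append e.p e'.p
    refine h3.ne ?_
    have := congrArg En.p h2
    simpa using this

lemma SUB_CF (hF : CF H b n M F col) (i : ℕ) :
    CF (H - 1) b n M (SUB M F col i (NI F i).toList) (ncol M F col i) where
  val := SUB_val hF i
  lt := by
    intro z hz
    obtain ⟨a, ha, e, he, rfl⟩ := mem_bind.1 hz
    rw [Finset.mem_toList] at ha
    rw [ncol_eq hF ha he]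
    exact hF.lt _ (mem_NI.1 ha).1.1
  cp := by
    unfold SUB bind
    rw [List.pairwise_flatMap]
    constructor
    · intro a ha
      rw [Finset.mem_toList, mem_NI] at ha
      rw [List.pairwise_map]
      have h1 := ndT_td (hF.pl ha.1.1 (lt_of_le_of_lt (Nat.zero_le _) ha.1.2.1.1)) ha.1.2.1.1
      refine List.Pairwise.imp (fun {e e'} h _ hw => ?_) h1
      simp only [En.pre_p, word_append] at hw
      exact h (List.append_cancel_left hw)
    · refine List.Pairwise.imp_of_mem (fun {a a'} ha ha' hne => ?_)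
        (Finset.nodup_toList (NI F i))
      rw [Finset.mem_toList] at ha ha'
      intro z hz z' hz'
      rw [List.mem_map] at hz hz'
      obtain ⟨e, he, rfl⟩ := hz
      obtain ⟨e', he', rfl⟩ := hz'
      intro hc hw
      rw [ncol_eq hF ha he, ncol_eq hF ha' he'] at hc
      simp only [En.pre_p, word_append] at hw
      obtain ⟨w1, w2⟩ := SUB_word hF ha ha' hw
      rw [mem_NI] at ha ha'
      refine cross (z := e) (z' := e') hF ha.1.1 ha'.1.1 ha.1.2.1.1 ha'.1.2.1.1 ?_
        (ha.2.trans ha'.2.symm) ?_ he he' w2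
      · rintro ⟨h1, h2⟩
        exact hne (Sigma.ext h1 (heq_of_eq h2))
      · intro hee
        exact hF.cp' ha.1.1 ha'.1.1 hee hc w1
  pos := by
    intro z hz
    obtain ⟨a, ha, e, he, rfl⟩ := mem_bind.1 hz
    rw [Finset.mem_toList, mem_NI] at ha
    have h1 := ndT_pos he
    have h2 := hF.pos _ ha.1.1
    rw [CF.pos_eq (lt_of_le_of_lt (Nat.zero_le _) ha.1.2.1.1)] at h2
    rw [En.pre_pos]
    omega

/-- if the height is zero there are no node items -/
lemma NI_empty (hF : CF 0 b n M F col) (i : ℕ) : NI F i = ∅ := by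
  rw [Finset.eq_empty_iff_forall_notMem]
  intro a ha
  rw [mem_NI] at ha
  have h1 := hF.pl ha.1.1 (lt_of_le_of_lt (Nat.zero_le _) ha.1.2.1.1)
  exact LegN_zero _ _ _ (h1.node ha.1.2.1.1)

/-! ### the base forest -/

/-- the class of a leaf -/
def LC (F : List En) (e : En) : Set En := {e' | e' ∈ F ∧ e'.a = e.a ∧ word e'.p = word e.p}

/-- leaves -/
def isL (e : En) : Prop := ∃ k, e.a = .leaf k

/-- base items -/
def BItem (F : List En) (e : En) (l : ℕ) : Prop :=
  (isL e ∧ l = 0 ∧ e = rep (LC F e)) ∨ RItem F e l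

/-- charged entries of base items -/
noncomputable def bslot (F : List En) (e : En) (l : ℕ) : En := if isL e then e else rslot F e l

/-- codes of base items -/
noncomputable def bcode (M : ℕ) (F : List En) (col : En → ℕ) (e : En) (l : ℕ) : ℕ :=
  if isL e then 0 else rcode M F col e l

/-- atoms of base items -/
noncomputable def batom (F : List En) (e : En) (l : ℕ) : At :=
  if isL e then e.a else .pc (run F e l)

lemma not_isL {e : En} {l : ℕ} (h : Start F e l) : ¬ isL e := by
  rintro ⟨k, hk⟩
  have h1 := h.1.1.lt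
  unfold len at h1
  rw [P_leaf hk] at h1
  simp at h1

/-- the base items -/
noncomputable def BI (F : List En) : Finset (Σ _ : En, ℕ) := items F (BItem F)

/-- the base forest -/
noncomputable def BASE (M : ℕ) (F : List En) (col : En → ℕ) : List En :=
  bind (BI F).toList (fun a => (bslot F a.1 a.2).p ++ [.lt (.E 0), .nm (bcode M F col a.1 a.2)])
    fun a => [⟨[], batom F a.1 a.2⟩]

lemma mem_BI {a : Σ _ : En, ℕ} : a ∈ BI F ↔ a.1 ∈ F ∧ BItem F a.1 a.2 := by
  unfold BI
  rw [mem_items]
  refine ⟨fun h => ⟨h.1, h.2.2⟩, fun h => ⟨h.1, ?_, h.2⟩⟩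
  rcases h.2 with h1 | h1
  · omega
  · exact h1.2.1.1.1.lt.le

lemma bslot_spec (hF : CF H b n M F col) {e : En} {l : ℕ} (he : e ∈ F) (h : BItem F e l) :
    bslot F e l ∈ F ∧ word (bslot F e l).p = word e.p ∧ bcode M F col e l < joinN M ∧
      (bslot F e l).pos ≤ (batom F e l).pos ∧ (batom F e l).Ok (ctx b (word e.p)) ∧
      ∀ p, batom F e l = .pc p → PLg p := by
  unfold bslot bcode batom
  rcases h with h | h
  · rw [if_pos h.1, if_pos h.1, if_pos h.1]
    refine ⟨he, rfl, by unfold joinN; positivity, le_rfl, hF.val.ok e he, ?_⟩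
    intro p hp
    exact ⟨H, hF.val.pcs e he p hp⟩
  · have hn := not_isL h.2.1
    rw [if_neg hn, if_neg hn, if_neg hn]
    have s1 := rslot_spec hF he h.2.1
    refine ⟨s1.1, s1.2.1, rcode_lt hF he h.2.1, ?_, ?_, ?_⟩
    · rw [CF.pos_eq s1.2.2.2.1]
      exact s1.2.2.2.2
    · exact ok_slot hF he (lt_of_le_of_lt (Nat.zero_le _) h.2.1.1.1.lt)
    · intro p hp
      have h1 : run F e l = p := by simpa using hp
      subst h1
      exact ⟨H, inv_PL H (P e) (run F e l) rfl rfl
        (hF.pl he (lt_of_le_of_lt (Nat.zero_le _) h.2.1.1.1.lt))⟩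

lemma bitem_inj (hF : CF H b n M F col) {e e' : En} (he : e ∈ F) (he' : e' ∈ F) {l l' : ℕ}
    (h : BItem F e l) (h' : BItem F e' l') (hs : bslot F e l = bslot F e' l')
    (hc : bcode M F col e l = bcode M F col e' l') : e = e' ∧ l = l' := by
  unfold bslot at hs
  unfold bcode at hc
  rcases h with h | h
  · rcases h' with h' | h'
    · rw [if_pos h.1, if_pos h'.1] at hs
      exact ⟨hs, by rw [h.2.1, h'.2.1]⟩
    · exfalso
      rw [if_pos h.1, if_neg (not_isL h'.2.1)] at hs
      have s1 := rslot_spec hF he' h'.2.1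
      obtain ⟨k, hk⟩ := h.1
      rw [hs, a_eq s1.2.2.2.1] at hk
      simp at hk
  · rcases h' with h' | h'
    · exfalso
      rw [if_neg (not_isL h.2.1), if_pos h'.1] at hs
      have s1 := rslot_spec hF he h.2.1
      obtain ⟨k, hk⟩ := h'.1
      rw [← hs, a_eq s1.2.2.2.1] at hk
      simp at hk
    · rw [if_neg (not_isL h.2.1), if_neg (not_isL h'.2.1)] at hs hc
      exact ritem_inj hF h h' hs hc

lemma good_of_run {e : En} {l m : ℕ} (h : Start F e l) (hr : RunTo F e l m) : Good F e m := by
  rcases hr.1.eq_or_lt with rfl | h1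
  · exact h.1
  · exact (hr.2 m h1 le_rfl).1

lemma BASE_td (hF : CF H b n M F col) : TD (BASE M F col) := by
  refine TD_bind ?_ ?_
  · intro a _
    exact List.pairwise_singleton _ _
  · refine List.Pairwise.imp_of_mem (fun {a a'} ha ha' hne => ?_) (Finset.nodup_toList (BI F))
    rw [Finset.mem_toList, mem_BI] at ha ha'
    intro z hz z' hz' hw
    rw [List.mem_singleton] at hz hz'
    subst hz
    subst hz'
    have s1 := bslot_spec hF ha.1 ha.2
    have s2 := bslot_spec hF ha'.1 ha'.2
    have hw' : word a.1.p = word a'.1.p := by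
      rw [← s1.2.1, ← s2.2.1]
      simpa using hw
    show Cp (batom F a.1 a.2) (batom F a'.1 a'.2)
    unfold batom
    rcases ha.2 with h | h
    · rcases ha'.2 with h' | h'
      · rw [if_pos h.1, if_pos h'.1]
        obtain ⟨k, hk⟩ := h.1
        obtain ⟨k', hk'⟩ := h'.1
        rw [hk, hk']
        show k ≠ k'
        intro hkk
        apply hne
        have haa : a.1.a = a'.1.a := by rw [hk, hk', hkk]
        have hLC : LC F a.1 = LC F a'.1 := by
          unfold LC
          rw [haa, hw']
        refine Sigma.ext ?_ (heq_of_eq (by rw [h.2.1, h'.2.1]))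
        rw [h.2.2, h'.2.2, hLC]
      · rw [if_pos h.1, if_neg (not_isL h'.2.1)]
        obtain ⟨k, hk⟩ := h.1
        rw [hk]
        trivial
    · rcases ha'.2 with h' | h'
      · rw [if_pos h'.1, if_neg (not_isL h.2.1)]
        obtain ⟨k, hk⟩ := h'.1
        rw [hk]
        trivial
      · rw [if_neg (not_isL h.2.1), if_neg (not_isL h'.2.1)]
        intro hii m hm hm' htake k hk
        have hm1 : m < len a.1 := hm
        have hm1' : m < len a'.1 := hm'
        have key : ∀ (e : En) (l : ℕ) (_ : e ∈ F) (_ : Start F e l) (hme : m < len e),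
            (P e).gs[m].lo ≤ k → k ≤ (P e).gs[m].hi → lo e l ≤ k → k ≤ hi e (rend F e l) →
            RunTo F e l m := by
          intro e l he hst hme k1 k2 k3 k4
          have hr := rend_spec (F := F) hst.1.1
          have hrl := (In_of_RunTo hst.1.1 hr).lt
          rw [RunTo_iff hst.1.1]
          have e1 : lo e m = (P e).gs[m].lo := by unfold lo; rw [Pc.nd_eq _ m hme]
          have e2 : hi e m = (P e).gs[m].hi := by unfold Jn.hi; rw [Pc.nd_eq _ m hme]
          constructor
          · by_contra hn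
            have := hF.hi_lt he (not_le.1 hn) hst.1.1.lt
            omega
          · by_contra hn
            have := hF.hi_lt he (not_le.1 hn) hme
            omega
        obtain ⟨k1, k2, k3, k4, k5, k6, k7, k8⟩ := hk
        have r1 := key a.1 a.2 ha.1 h.2.1 hm1 k1 k2 k3 k4
        have r2 := key a'.1 a'.2 ha'.1 h'.2.1 hm1' k5 k6 k7 k8
        have hE : Eqv a.1 a'.1 m := ⟨hw', hii, htake⟩
        have g1 := good_of_run h.2.1 r1
        have g2 := good_of_run h'.2.1 r2
        have hE' := g1.2 a'.1 ha'.1 hE g2.1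
        have hl := run_common ha.1 ha'.1 h.2.1 r1 h'.2.1 r2 hE'
        apply hne
        refine Sigma.ext ?_ (heq_of_eq hl)
        have hE2 : Eqv a.1 a'.1 (a.2 + 1) := hE'.mono (by have := r1.1; omega)
        rw [h.2.2, h'.2.2, ← hl, C_eq hE2]

lemma BASE_val (hF : CF H b n M F col) : Val PLg b n (BASE M F col) := by
  refine Val_bind 0 ?_ ?_ ?_ ?_ ?_
  · intro a ha
    rw [Finset.mem_toList, mem_BI] at ha
    have s1 := bslot_spec hF ha.1 ha.2
    have hctx : ctx b (word ((bslot F a.1 a.2).p ++
        [.lt (.E 0), .nm (bcode M F col a.1 a.2)])) = ctx b (word a.1.p) := by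
      simp [s1.2.1]
    rw [hctx]
    constructor
    · intro e he
      rw [List.mem_singleton] at he
      subst he
      simp
    · intro e he k hk
      rw [List.mem_singleton] at he
      subst he
      simp at hk
    · intro e he
      rw [List.mem_singleton] at he
      subst he
      simp
    · intro e he
      rw [List.mem_singleton] at he
      subst he
      exact s1.2.2.2.2.1
    · intro e he p hp
      rw [List.mem_singleton] at he
      subst he
      exact s1.2.2.2.2.2 p hp
    · exact List.pairwise_singleton _ _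
  · intro a ha q hq
    rw [Finset.mem_toList, mem_BI] at ha
    have s1 := bslot_spec hF ha.1 ha.2
    rw [List.append_assoc]
    exact wf_new hF s1.1 _ hq
  · intro a ha e he k hk
    rw [Finset.mem_toList, mem_BI] at ha
    have s1 := bslot_spec hF ha.1 ha.2
    rw [List.mem_singleton] at he
    subst he
    show k ≤ (batom F a.1 a.2).pos
    rw [List.mem_append] at hk
    rcases hk with hk | hk
    · exact (hF.val.self _ s1.1 k hk).trans s1.2.2.2.1
    · simp only [List.mem_cons, reduceCtorEq, Sym.nm.injEq, List.not_mem_nil, or_false,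
        false_or] at hk
      have h2 := hF.pos _ s1.1
      have h3 := s1.2.2.1
      have h4 := s1.2.2.2.1
      omega
  · intro a ha
    rw [Finset.mem_toList, mem_BI] at ha
    have s1 := bslot_spec hF ha.1 ha.2
    have := hF.val.rc _ s1.1
    simpa using this
  · refine List.Pairwise.imp_of_mem (fun {a a'} ha ha' hne e he e' he' => ?_)
      (Finset.nodup_toList (BI F))
    rw [Finset.mem_toList, mem_BI] at ha ha'
    rw [List.mem_singleton] at he he'
    subst he
    subst he'
    have s1 := bslot_spec hF ha.1 ha.2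
    have s2 := bslot_spec hF ha'.1 ha'.2
    refine charge_div hF s1.1 s2.1 ?_ s1.2.2.2.1 s2.2.2.2.1 s1.2.2.1 s2.2.2.1 _ _
    rintro ⟨h1, h2⟩
    obtain ⟨h3, h4⟩ := bitem_inj hF ha.1 ha'.1 ha.2 ha'.2 h1 h2
    exact hne (Sigma.ext h3 (heq_of_eq h4))

end

end Jn

end Pool.Agent.Helper64.Hit
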