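import Pool.Agent.Helper64.Hit.Der
import Pool.Agent.Helper52.Hit.Join

/-!
# L1-forms on finite-dimensional subspaces of tails (module J)
-/

set_option autoImplicit false

open Module

namespace Pool.Agent.Helper64.Hit

namespace Jn

lemma exists_net {W : Type} [AddCommGroup W] [Module ℝ W] (V : Submodule ℝ W)
    (hV : FiniteDimensional ℝ V) (p : W → ℝ) (p_add : ∀ x y, p (x + y) ≤ p x + p y)
    (p_smul : ∀ (a : ℝ) x, p (a • x) = |a| * p x) (p_pos : ∀ x, p x = 0 → x = 0) :
    ∃ s : Finset W, s.card ≤ 5 ^ finrank ℝ V ∧ (∀ z ∈ s, p z = 2) ∧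
      ∀ y ∈ V, p y = 2 → ∃ z ∈ s, p (y - z) < 1 := by
  classical
  have p_zero : p 0 = 0 := by
    have := p_smul 0 0
    simpa using this
  have p_neg : ∀ x, p (-x) = p x := fun x => by
    have := p_smul (-1) x
    simpa using this
  let nrm : AddGroupNorm V :=
    { toFun := fun v => p v
      map_zero' := by simpa using p_zero
      add_le' := fun v w => p_add v w
      neg' := fun v => by simpa using p_neg v
      eq_zero_of_map_eq_zero' := fun v hv => Subtype.ext (p_pos v hv) }
  let _ : NormedAddCommGroup V := nrm.toNormedAddCommGroup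
  have hn : ∀ v : V, ‖v‖ = p v := fun v => rfl
  let _ : NormedSpace ℝ V := ⟨fun a v => by
    rw [hn, hn]
    have := p_smul a (v : W)
    rw [Real.norm_eq_abs]
    exact this.le⟩
  have : FiniteDimensional ℝ V := hV
  let Sep : Finset V → Prop := fun s => (∀ c ∈ s, ‖c‖ = 2) ∧ ∀ c ∈ s, ∀ d ∈ s, c ≠ d → 1 ≤ ‖c - d‖
  have hbound : ∀ s : Finset V, Sep s → s.card ≤ 5 ^ finrank ℝ V := fun s hs =>
    Besicovitch.card_le_of_separated s (fun c hc => (hs.1 c hc).le) hs.2
  obtain ⟨s, hs, hmax⟩ : ∃ s : Finset V, Sep s ∧ ∀ s' : Finset V, Sep s' → s'.card ≤ s.card := by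
    have hne : (0 : ℕ) ∈ {n : ℕ | ∃ s : Finset V, Sep s ∧ s.card = n} :=
      ⟨∅, ⟨by simp, by simp⟩, by simp⟩
    have hbdd : BddAbove {n : ℕ | ∃ s : Finset V, Sep s ∧ s.card = n} :=
      ⟨5 ^ finrank ℝ V, by rintro n ⟨s, hs, rfl⟩; exact hbound s hs⟩
    obtain ⟨s, hs, hc⟩ := Nat.sSup_mem ⟨0, hne⟩ hbdd
    exact ⟨s, hs, fun s' hs' => by rw [hc]; exact le_csSup hbdd ⟨s', hs', rfl⟩⟩
  refine ⟨s.map ⟨Subtype.val, Subtype.val_injective⟩, ?_, ?_, ?_⟩
  · rw [Finset.card_map]
    exact hbound s hs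
  · intro z hz
    rw [Finset.mem_map] at hz
    obtain ⟨c, hc, rfl⟩ := hz
    exact hs.1 c hc
  · intro y hy hpy
    by_contra hn'
    push Not at hn'
    set c : V := ⟨y, hy⟩ with hc
    have hfar : ∀ d ∈ s, 1 ≤ ‖c - d‖ := by
      intro d hd
      have := hn' (d : W) (by rw [Finset.mem_map]; exact ⟨d, hd, rfl⟩)
      rw [hn]
      exact this
    have hcs : c ∉ s := by
      intro h
      have := hfar c h
      rw [sub_self, norm_zero] at this
      linarith
    have hS : Sep (insert c s) := by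
      refine ⟨?_, ?_⟩
      · intro d hd
        rcases Finset.mem_insert.1 hd with rfl | hd
        · rw [hn]; exact hpy
        · exact hs.1 d hd
      · intro d hd d' hd' hne
        rcases Finset.mem_insert.1 hd with rfl | hd1
        · rcases Finset.mem_insert.1 hd' with rfl | hd2
          · exact absurd rfl hne
          · exact hfar d' hd2
        · rcases Finset.mem_insert.1 hd' with rfl | hd2
          · rw [norm_sub_rev]; exact hfar d hd1
          · exact hs.2 d hd1 d' hd2 hne
    have := hmax _ hS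
    rw [Finset.card_insert_of_notMem hcs] at this
    omega

/-- the value of an atom as a linear functional -/
noncomputable def valL (a : At) : (ℕ →₀ ℝ) →ₗ[ℝ] ℝ where
  toFun := a.val
  map_add' := At.val_add a
  map_smul' t x := by
    rw [At.val_smul, smul_eq_mul, RingHom.id_apply]

/-- the functionals of a weighted list of forests -/
noncomputable def fcts (L : List (ℝ × List En)) : List ((ℕ →₀ ℝ) →ₗ[ℝ] ℝ) :=
  L.flatMap fun p => p.2.map fun e => (5 / 2 * (p.1 * e.cf)) • valL e.a

lemma sum_fcts (L : List (ℝ × List En)) (hL : ∀ p ∈ L, 0 ≤ p.1) (x : ℕ →₀ ℝ) :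
    ((fcts L).map fun f => |f x|).sum = 5 / 2 * (L.map fun p => p.1 * Phi p.2 x).sum := by
  induction L with
  | nil => simp [fcts]
  | cons p L ih =>
    have ih' := ih fun p' hp' => hL p' (List.mem_cons_of_mem _ hp')
    unfold fcts at ih' ⊢
    rw [List.flatMap_cons, List.map_append, List.sum_append, ih', List.map_cons, List.sum_cons,
      mul_add]
    congr 1
    have hp := hL p List.mem_cons_self
    rw [List.map_map]
    unfold Phi
    induction p.2 with
    | nil => simp
    | cons e F ihF =>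
      rw [List.map_cons, List.sum_cons, ihF, List.map_cons, List.sum_cons, Function.comp_apply]
      have h1 : ((5 / 2 * (p.1 * e.cf)) • valL e.a) x = (5 / 2 * (p.1 * e.cf)) * e.a.val x := rfl
      have h2 : 0 ≤ 5 / 2 * (p.1 * e.cf) := by
        have := e.cf_pos
        positivity
      rw [h1, abs_mul, abs_of_nonneg h2]
      ring

/-- module J with the norm properties as hypotheses -/
theorem n_join_of (h_le : ∀ F : List En, Leg 0 0 F → ∀ x, Phi F x ≤ Nb 0 x)
    (h_ex : ∀ (x : ℕ →₀ ℝ) (c : ℝ), c < Nb 0 x → ∃ F, Leg 0 0 F ∧ c < Phi F x)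
    (h_add : ∀ x y, Nb 0 (x + y) ≤ Nb 0 x + Nb 0 y)
    (h_smul : ∀ (a : ℝ) (x : ℕ →₀ ℝ), Nb 0 (a • x) = |a| * Nb 0 x)
    (h_coord : ∀ (x : ℕ →₀ ℝ) (k : ℕ), |x k| ≤ Nb 0 x)
    (h_op : ∀ F : List En, Leg 0 1 F → ∀ x, Phi F x ≤ 8 * Nb 0 x) :
    ∀ M : ℕ, ∃ N0 : ℕ, ∀ x : Fin M → (ℕ →₀ ℝ), (∀ j, ∀ i ∈ (x j).support, N0 ≤ i) →
      ∃ (m : ℕ) (f : Fin m → ((ℕ →₀ ℝ) →ₗ[ℝ] ℝ)), ∀ c : Fin M → ℝ,
        Nb 0 (∑ j, c j • x j) ≤ ∑ i, |f i (∑ j, c j • x j)| ∧
        ∑ i, |f i (∑ j, c j • x j)| ≤ 320 * Nb 0 (∑ j, c j • x j) := by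
  classical
  intro M
  refine ⟨joinN (5 ^ M), fun x hx => ?_⟩
  set N0 := joinN (5 ^ M) with hN0
  set V : Submodule ℝ (ℕ →₀ ℝ) := Submodule.span ℝ (Set.range x) with hV
  have hfin : FiniteDimensional ℝ V := FiniteDimensional.span_of_finite ℝ (Set.finite_range x)
  have hrank : finrank ℝ V ≤ M := by
    have := finrank_range_le_card (R := ℝ) x
    rw [Fintype.card_fin] at this
    exact this
  have p_pos : ∀ y : ℕ →₀ ℝ, Nb 0 y = 0 → y = 0 := by
    intro y hy
    ext k
    have := h_coord y k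
    rw [hy] at this
    simpa using abs_nonpos_iff.1 this
  obtain ⟨s, hcard, hs2, hnet⟩ := exists_net V hfin (Nb 0) h_add h_smul p_pos
  have hcard' : s.card ≤ 5 ^ M := hcard.trans (Nat.pow_le_pow_right (by norm_num) hrank)
  -- the common support
  obtain ⟨u, hu⟩ : ∃ u : ℕ, ∀ j, ∀ i ∈ (x j).support, i ≤ u := by
    refine ⟨(Finset.univ.biUnion fun j => (x j).support).sup id, fun j i hi => ?_⟩
    exact Finset.le_sup (f := id) (Finset.mem_biUnion.2 ⟨j, Finset.mem_univ j, hi⟩)
  have hres : ∀ y ∈ V, res N0 u y = y := by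
    intro y hy
    have hy' : ∀ k, y k ≠ 0 → N0 ≤ k ∧ k ≤ u := by
      rw [hV] at hy
      induction hy using Submodule.span_induction with
      | mem z hz =>
        obtain ⟨j, rfl⟩ := hz
        intro k hk
        have hk' : k ∈ (x j).support := by simpa using hk
        exact ⟨hx j k hk', hu j k hk'⟩
      | zero => intro k hk; simp at hk
      | add y z _ _ h1 h2 =>
        intro k hk
        by_cases hyk : y k = 0
        · apply h2
          intro hzk
          apply hk
          rw [Finsupp.add_apply, hyk, hzk, add_zero]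
        · exact h1 k hyk
      | smul a y _ h1 =>
        intro k hk
        apply h1
        intro hyk
        apply hk
        rw [Finsupp.smul_apply, hyk, smul_zero]
    ext k
    rw [res_apply]
    split_ifs with h
    · rfl
    · by_contra hne
      exact h (hy' k (Ne.symm hne))
  -- the trees
  have htree : ∀ z ∈ s, ∃ F, Leg 0 0 F ∧ (9 / 5 : ℝ) < Phi F z := fun z hz =>
    h_ex z _ (by rw [hs2 z hz]; norm_num)
  choose! t ht1 ht2 using htree
  let g : Fin (5 ^ M) → List En := fun i =>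
    if h : (i : ℕ) < s.card then trF N0 u (t (s.equivFin.symm ⟨i, h⟩ : (ℕ →₀ ℝ))) else []
  have hnil : Leg 0 0 ([] : List En) := by
    refine ⟨⟨by simp, by simp, by simp, by simp, by simp, List.Pairwise.nil⟩, List.Pairwise.nil⟩
  have hg1 : ∀ i, Leg 0 0 (g i) := by
    intro i
    simp only [g]
    split_ifs with h
    · exact (ht1 _ (s.equivFin.symm ⟨i, h⟩).2).trF N0 u
    · exact hnil
  have hg2 : ∀ i, ∀ e ∈ g i, joinN (5 ^ M) ≤ e.pos := by
    intro i e he
    simp only [g] at he
    split_ifs at he with h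
    · obtain ⟨e', _, _, _, h3⟩ := mem_trF he
      exact h3.pos
    · simp at he
  obtain ⟨L, hL1, hL2, hL3⟩ := join (5 ^ M) g hg1 hg2
  refine ⟨(fcts L).length, fun i => (fcts L).get i, fun c => ?_⟩
  set y := ∑ j, c j • x j with hy
  have hyV : y ∈ V := by
    rw [hy, hV]
    exact Submodule.sum_mem _ fun j _ => Submodule.smul_mem _ _ (Submodule.subset_span ⟨j, rfl⟩)
  have hsum : ∑ i, |((fcts L).get i) y| = 5 / 2 * (L.map fun p => p.1 * Phi p.2 y).sum := by
    rw [← sum_fcts L (fun p hp => (hL1 p hp).1) y]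
    rw [← Fin.sum_univ_fun_getElem]
    rfl
  rw [hsum]
  have hnn : 0 ≤ (L.map fun p => p.1 * Phi p.2 y).sum := by
    refine List.sum_nonneg fun r hr => ?_
    rw [List.mem_map] at hr
    obtain ⟨p, hp, rfl⟩ := hr
    exact mul_nonneg (hL1 p hp).1 (Phi_nonneg _ _)
  have hNnn : ∀ z : ℕ →₀ ℝ, 0 ≤ Nb 0 z := fun z => (abs_nonneg (z 0)).trans (h_coord z 0)
  constructor
  · -- lower estimate
    rcases (hNnn y).eq_or_lt with h0 | hpos
    · rw [← h0]
      positivity
    · set r := Nb 0 y with hr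
      set y' : ℕ →₀ ℝ := (2 / r) • y with hy'
      have hy'V : y' ∈ V := Submodule.smul_mem _ _ hyV
      have hn' : Nb 0 y' = 2 := by
        rw [hy', h_smul, abs_of_pos (by positivity), ← hr]
        field_simp
      obtain ⟨z, hz, hzd⟩ := hnet y' hy'V hn'
      obtain ⟨i, hi⟩ : ∃ i : Fin (5 ^ M), g i = trF N0 u (t z) := by
        have h1 := (s.equivFin ⟨z, hz⟩).2
        refine ⟨⟨(s.equivFin ⟨z, hz⟩ : ℕ), lt_of_lt_of_le h1 hcard'⟩, ?_⟩
        simp only [g]
        rw [dif_pos h1]
        simp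
      have h1 : Phi (t z) y' ≤ (L.map fun p => p.1 * Phi p.2 y').sum := by
        have := hL3 i y'
        rw [hi, Phi_trF, hres y' hy'V] at this
        exact this
      have h2 : Phi (t z) z ≤ Phi (t z) y' + Phi (t z) (y' - z) := by
        have e1 : z = y' + (-1 : ℝ) • (y' - z) := by
          rw [neg_one_smul]
          abel
        have h3 := Phi_add_le (t z) y' ((-1 : ℝ) • (y' - z))
        have h3' : Phi (t z) ((-1 : ℝ) • (y' - z)) = Phi (t z) (y' - z) := by
          rw [Phi_smul, abs_neg, abs_one, one_mul]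
        rw [← e1, h3'] at h3
        exact h3
      have h4 := h_le (t z) (ht1 z hz) (y' - z)
      have h5 := ht2 z hz
      have h6 : 4 / 5 < (L.map fun p => p.1 * Phi p.2 y').sum := by linarith
      have h7 : (L.map fun p => p.1 * Phi p.2 y').sum =
          2 / r * (L.map fun p => p.1 * Phi p.2 y).sum := by
        rw [← sum_mul_list]
        congr 1
        refine List.map_congr_left fun p _ => ?_
        rw [hy', Phi_smul, abs_of_pos (by positivity)]
        ring
      rw [h7, div_mul_eq_mul_div, lt_div_iff₀ hpos] at h6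
      linarith
  · -- upper estimate
    have h1 : (L.map fun p => p.1 * Phi p.2 y).sum ≤ (L.map Prod.fst).sum * (8 * Nb 0 y) := by
      clear hsum hnn hL2 hL3
      induction L with
      | nil => simp
      | cons p L ih =>
        have h2 := hL1 p List.mem_cons_self
        have h3 := h_op p.2 h2.2 y
        have h4 := ih fun p' hp' => hL1 p' (List.mem_cons_of_mem _ hp')
        rw [List.map_cons, List.sum_cons, List.map_cons, List.sum_cons, add_mul]
        exact add_le_add (mul_le_mul_of_nonneg_left h3 h2.1) h4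
    have h2 : (L.map Prod.fst).sum * (8 * Nb 0 y) ≤ 16 * (8 * Nb 0 y) :=
      mul_le_mul_of_nonneg_right hL2 (by have := hNnn y; positivity)
    linarith

end Jn

end Pool.Agent.Helper64.Hit
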